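import Pool.Agent.Lib.MP_91a79a_co.E.S2

/-! piece Col (MP_91a79a_co): bodies get the minority colour; number of special points -/

noncomputable section

namespace MP91a79a

open Set Classical

variable {P B : Finset Pt} {C T : Finset (Finset Pt)}

private def mnr (p q r : Bool) : Bool := !((p && q) || (q && r) || (r && p))

private theorem mnr_rot (p q r : Bool) : mnr q r p = mnr p q r := by
  cases p <;> cases q <;> cases r <;> rfl

private theorem mnr_min (p q r : Bool) : ¬ (p = mnr p q r ∧ q = mnr p q r) := by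
  cases p <;> cases q <;> cases r <;> simp [mnr]

/-- PROOF. For `x ∈ P \ B` choose its cell `(a,b,c)` (`cell_ex`) and let `col (some x)` be the
colour which is NOT the majority among `col0 a`, `col0 b`, `col0 c`:
`!((col0 a && col0 b) || (col0 b && col0 c) || (col0 c && col0 a))`, which is invariant under
rotation; all other vertices keep `col0`.  `Mino`: let `Bdy P B a b c x`; the corners are in `Wp B`
(`OT_mem h.tri`, `OT_rot`), so have colour `col0`; by `cell_uniq` the chosen cell of `x` is a rotation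
of `a b c`; Boolean case check. Body points of one cell have the same colour by the same
argument. -/
theorem ext_col (hG : GP P) (h : Coarse P B C T) (col0 : Option Pt → Bool) :
    ∃ col : Option Pt → Bool, (∀ v ∈ Wp B, col v = col0 v) ∧ Mino P B C col ∧
      ∀ a b c x y, OT B C a b c → Bdy P B a b c x → Bdy P B a b c y →
        col (some x) = col (some y) := by
  have hex : ∀ x : Pt, ∃ t : Option Pt × Option Pt × Option Pt, x ∈ P → x ∉ B →
      OT B C t.1 t.2.1 t.2.2 ∧ Bdy P B t.1 t.2.1 t.2.2 x := by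
    intro x
    by_cases hx : x ∈ P ∧ x ∉ B
    · obtain ⟨a, b, c, h1, h2⟩ := cell_ex hG h hx.1 hx.2
      exact ⟨(a, b, c), fun _ _ => ⟨h1, h2⟩⟩
    · exact ⟨(none, none, none), fun h1 h2 => absurd ⟨h1, h2⟩ hx⟩
  choose cl hcl using hex
  let col : Option Pt → Bool := fun v =>
    match v with
    | none => col0 none
    | some x => if x ∈ B then col0 (some x) else mnr (col0 (cl x).1) (col0 (cl x).2.1) (col0 (cl x).2.2)
  have hW : ∀ v ∈ Wp B, col v = col0 v := by
    intro v hv
    rcases mem_Wp.1 hv with rfl | ⟨y, hy, rfl⟩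
    · rfl
    · change (if y ∈ B then _ else _) = _
      rw [if_pos hy]
  have hb : ∀ a b c x, OT B C a b c → Bdy P B a b c x →
      col (some x) = mnr (col0 a) (col0 b) (col0 c) := by
    intro a b c x h1 h2
    have e : col (some x) = mnr (col0 (cl x).1) (col0 (cl x).2.1) (col0 (cl x).2.2) := by
      change (if x ∈ B then _ else _) = _
      rw [if_neg h2.2.1]
    rw [e]
    obtain ⟨h3, h4⟩ := hcl x h2.1 h2.2.1
    rcases cell_uniq hG h h1 h2 h3 h4 with ⟨e1, e2, e3⟩ | ⟨e1, e2, e3⟩ | ⟨e1, e2, e3⟩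
    · rw [e1, e2, e3]
    · rw [e1, e2, e3, mnr_rot]
    · rw [e1, e2, e3, mnr_rot, mnr_rot]
  refine ⟨col, hW, ?_, ?_⟩
  · intro a b c x h1 h2
    rw [hb a b c x h1 h2, hW a (OT_mem h.tri _ _ _ h1), hW b (OT_mem h.tri _ _ _ (OT_rot _ _ _ h1))]
    exact mnr_min _ _ _
  · intro a b c x y h1 h2 h3
    rw [hb a b c x h1 h2, hb a b c y h1 h3]

/-- PROOF. Each special point `x ∉ B` has a pair `(d, d') ∈ Wp B ×ˢ Wp B` with `OT P T d d' (some x)`;
the pair determines `x` (`OT_fn` in G/G1.lean is in the hypothesis `hfn`);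
`Finset.card_le_card_of_injOn`, `(Wp B).card ≤ B.card + 1`. -/
theorem Dst_card (hfn : ∀ x y z z', OT P T x y z → OT P T x y z' → z = z') :
    (Dst P B T).card ≤ B.card + (B.card + 1) ^ 2 := by
  have hW : (Wp B).card ≤ B.card + 1 := by
    unfold Wp
    refine (Finset.card_insert_le _ _).trans ?_
    exact Nat.add_le_add_right Finset.card_image_le 1
  unfold Dst
  refine (Finset.card_union_le _ _).trans (Nat.add_le_add_left ?_ _)
  have hex : ∀ x : Pt, ∃ q : Option Pt × Option Pt,
      x ∈ P.filter (fun x => ∃ d ∈ Wp B, ∃ d' ∈ Wp B, OT P T d d' (some x)) →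
      (q ∈ Wp B ×ˢ Wp B ∧ OT P T q.1 q.2 (some x)) := by
    intro x
    by_cases hx : x ∈ P.filter (fun x => ∃ d ∈ Wp B, ∃ d' ∈ Wp B, OT P T d d' (some x))
    · obtain ⟨-, d, hd, d', hd', ho⟩ := Finset.mem_filter.1 hx
      exact ⟨(d, d'), fun _ => ⟨Finset.mem_product.2 ⟨hd, hd'⟩, ho⟩⟩
    · exact ⟨(none, none), fun h => absurd h hx⟩
  choose f hf using hex
  have hle : (P.filter (fun x => ∃ d ∈ Wp B, ∃ d' ∈ Wp B, OT P T d d' (some x))).card ≤
      (Wp B ×ˢ Wp B).card := by
    refine Finset.card_le_card_of_injOn f ?_ ?_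
    · intro x hx
      exact Finset.mem_coe.2 (hf x (Finset.mem_coe.1 hx)).1
    · intro x hx y hy hxy
      have h1 := (hf x (Finset.mem_coe.1 hx)).2
      have h2 := (hf y (Finset.mem_coe.1 hy)).2
      rw [hxy] at h1
      exact Option.some.inj (hfn _ _ _ _ h1 h2)
  refine hle.trans ?_
  rw [Finset.card_product, sq]
  exact Nat.mul_le_mul hW hW

end MP91a79a

end
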