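import Pool.Agent.Lib.MP_91a79a_co.Inst
import Pool.Agent.Lib.MP_91a79a_co.Red

/-!
Existence half of MP_91a79a_co (`HypE`), section 3 of the blueprint: cells and their bodies,
canonical refinement, colours, special points.  Cells = oriented triangles `a b c` of the sphere
`OT B C`; everything is invariant under rotation of `(a, b, c)`.
-/

noncomputable section

namespace MP91a79a

open Set Classical

variable {P B : Finset Pt} {C T : Finset (Finset Pt)}

/-- `p` is on the left of `a → b` (no condition if one of `a`, `b` is infinity) -/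
def lfo : Option Pt → Option Pt → Pt → Prop
  | some a, some b, p => 0 < cr a b p
  | _, _, _ => True

/-- the point `p` is in the cell `abc`: in the open triangle `abc`, or, if one of `a`, `b`, `c` is
infinity, beyond the hull edge -/
def Cel (a b c : Option Pt) (p : Pt) : Prop := lfo a b p ∧ lfo b c p ∧ lfo c a p

/-- `p` is in the body of the cell `abc` -/
def Bdy (P B : Finset Pt) (a b c : Option Pt) (p : Pt) : Prop := p ∈ P ∧ p ∉ B ∧ Cel a b c p

/-- the vertex `v` is a corner of the cell `abc` or in its body -/
def Cc (P B : Finset Pt) (a b c v : Option Pt) : Prop :=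
  v = a ∨ v = b ∨ v = c ∨ ∃ p, v = some p ∧ Bdy P B a b c p

theorem Cel.rot {a b c : Option Pt} {p : Pt} (h : Cel a b c p) : Cel b c a p := ⟨h.2.1, h.2.2, h.1⟩

theorem Bdy.rot {a b c : Option Pt} {p : Pt} (h : Bdy P B a b c p) : Bdy P B b c a p :=
  ⟨h.1, h.2.1, h.2.2.rot⟩

theorem Cc.rot {a b c v : Option Pt} (h : Cc P B a b c v) : Cc P B b c a v := by
  rcases h with h | h | h | ⟨p, h, h'⟩
  · exact Or.inr (Or.inr (Or.inl h))
  · exact Or.inl h
  · exact Or.inr (Or.inl h)
  · exact Or.inr (Or.inr (Or.inr ⟨p, h, h'.rot⟩))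

/-- a cell is a finite triangle or a cap -/
theorem OT_cases {a b c : Option Pt} (h : OT B C a b c) :
    (∃ x y z, a = some x ∧ b = some y ∧ c = some z ∧ {x, y, z} ∈ C ∧ 0 < cr x y z) ∨
    ∃ u w, HE B u w ∧ ((a = none ∧ b = some w ∧ c = some u) ∨
      (a = some w ∧ b = some u ∧ c = none) ∨ (a = some u ∧ b = none ∧ c = some w)) := by
  rcases a with _ | x <;> rcases b with _ | y <;> rcases c with _ | z <;> simp only [OT] at h
  · exact Or.inr ⟨z, y, h, Or.inl ⟨rfl, rfl, rfl⟩⟩
  · exact Or.inr ⟨x, z, h, Or.inr (Or.inr ⟨rfl, rfl, rfl⟩)⟩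
  · exact Or.inr ⟨y, x, h, Or.inr (Or.inl ⟨rfl, rfl, rfl⟩)⟩
  · exact Or.inl ⟨x, y, z, rfl, rfl, rfl, h.1, h.2⟩

/-- canonical refinement: every finite cell with nonempty body can be rotated to `abc` such that
all body points are adjacent to `a`, and the apex `z` of `bc` is the body point with the smallest
angle at `b` -/
def Can (P B : Finset Pt) (C Tc : Finset (Finset Pt)) : Prop :=
  ∀ a b c : Pt, OT B C (some a) (some b) (some c) → (∃ x, Bdy P B (some a) (some b) (some c) x) →
    ∃ a' b' c' : Pt, Rot a b c a' b' c' ∧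
      (∀ x, Bdy P B (some a') (some b') (some c') x → Side Tc a' x) ∧
      ∃ z, Bdy P B (some a') (some b') (some c') z ∧ OT P Tc (some b') (some c') (some z) ∧
        ∀ x, Bdy P B (some a') (some b') (some c') x → 0 ≤ cr b' z x

/-- the points of a body have the minority colour of the three corners -/
def Mino (P B : Finset Pt) (C : Finset (Finset Pt)) (col : Option Pt → Bool) : Prop :=
  ∀ a b c x, OT B C a b c → Bdy P B a b c x → ¬ (col a = col (some x) ∧ col b = col (some x))

/-- (t2): every body point is adjacent to a hub (or infinity) of the other colour -/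
def Dom (P B : Finset Pt) (T : Finset (Finset Pt)) (col : Option Pt → Bool) : Prop :=
  ∀ x ∈ P, x ∉ B → ∃ d ∈ Wp B, col d ≠ col (some x) ∧ Ed (OT P T) (some x) d

/-- (t3): the canonical apexes of the monochromatic sides of the finite cells are kept -/
def Keep (P B : Finset Pt) (C Tc T : Finset (Finset Pt)) (col : Option Pt → Bool) : Prop :=
  ∀ p q r z : Pt, OT B C (some p) (some q) (some r) → z ∉ B → col (some p) = col (some q) →
    OT P Tc (some p) (some q) (some z) → OT P T (some p) (some q) (some z)

/-- the special points: the hubs, and the points in a triangle of the sphere with two vertices in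
`B ∪ {∞}` -/
def Dst (P B : Finset Pt) (T : Finset (Finset Pt)) : Finset Pt :=
  B ∪ P.filter (fun x => ∃ d ∈ Wp B, ∃ d' ∈ Wp B, OT P T d d' (some x))

/-- (Q): a point which is not special has only one neighbour of the other colour -/
def Qone (P B : Finset Pt) (T : Finset (Finset Pt)) (col : Option Pt → Bool) : Prop :=
  ∀ x ∈ P, x ∉ Dst P B T → ∀ d d', Ed (OT P T) (some x) d → Ed (OT P T) (some x) d' →
    col d ≠ col (some x) → col d' ≠ col (some x) → d = d'

theorem mem_Wp_none : (none : Option Pt) ∈ Wp B := mem_Wp.2 (Or.inl rfl)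

end MP91a79a

end
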