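import Pool.Agent.Lib.MP_91a79a_co.E.L
import Pool.Agent.Lib.MP_91a79a_co.Compl

/-!
Existence of the canonical refinement and of `T_chi` (MP_91a79a_co, section 3 of the blueprint).
-/

set_option autoImplicit false

noncomputable section

namespace MP91a79a

open Set Classical

variable {P B : Finset Pt} {C T : Finset (Finset Pt)} {col : Option Pt → Bool}

/-! ### cells contain the open segments at body points -/

/-- `z` is on the left of or on `a → b` -/
def wlfo : Option Pt → Option Pt → Pt → Prop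
  | some a, some b, p => 0 ≤ cr a b p
  | _, _, _ => True

theorem lfo.w {a b : Option Pt} {p : Pt} (h : lfo a b p) : wlfo a b p := by
  rcases a with _ | a <;> rcases b with _ | b <;> simp only [lfo, wlfo] at h ⊢
  exact h.le

theorem lfo.comb {a b : Option Pt} {x y : Pt} {u v : ℝ} (hu : 0 < u) (hv : 0 < v)
    (huv : u + v = 1) (h1 : wlfo a b x) (h2 : lfo a b y) : lfo a b (u • x + v • y) := by
  rcases a with _ | a <;> rcases b with _ | b <;> simp only [lfo, wlfo] at h1 h2 ⊢
  rw [cr_comb2 _ _ _ _ _ _ huv]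
  exact add_pos_of_nonneg_of_pos (mul_nonneg hu.le h1) (mul_pos hv h2)

/-- weakly in the cell -/
def Wc (a b c : Option Pt) (p : Pt) : Prop := wlfo a b p ∧ wlfo b c p ∧ wlfo c a p

theorem Wc.comb {a b c : Option Pt} {x y : Pt} {u v : ℝ} (hu : 0 < u) (hv : 0 < v)
    (huv : u + v = 1) (h1 : Wc a b c x) (h2 : Cel a b c y) : Cel a b c (u • x + v • y) :=
  ⟨lfo.comb hu hv huv h1.1 h2.1, lfo.comb hu hv huv h1.2.1 h2.2.1,
    lfo.comb hu hv huv h1.2.2 h2.2.2⟩

theorem wlfo_of {a b : Option Pt} {x : Pt} (h : ∀ a' b', a = some a' → b = some b' →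
    0 ≤ cr a' b' x) : wlfo a b x := by
  rcases a with _ | a <;> rcases b with _ | b <;> simp only [wlfo]
  exact h a b rfl rfl

theorem Wc_of_Cc {a b c : Option Pt} {x : Pt} (hc : OT B C a b c)
    (hx : Cc P B a b c (some x)) : Wc a b c x := by
  rcases hx with hx | hx | hx | ⟨p, hp, hb⟩
  · rcases OT_cases hc with ⟨x1, y1, z1, rfl, rfl, rfl, -, h0⟩ | ⟨u, w, hHE, h⟩
    · obtain rfl := Option.some.inj hx
      refine ⟨?_, ?_, ?_⟩
      · show 0 ≤ cr x y1 x; rw [cr_self]
      · show 0 ≤ cr y1 z1 x; rw [← cr_rot]; exact h0.le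
      · show 0 ≤ cr z1 x x; rw [cr_self']
    · rcases h with ⟨rfl, rfl, rfl⟩ | ⟨rfl, rfl, rfl⟩ | ⟨rfl, rfl, rfl⟩
      · exact absurd hx (by simp)
      · obtain rfl := Option.some.inj hx
        exact ⟨by show 0 ≤ cr x u x; rw [cr_self], trivial, trivial⟩
      · obtain rfl := Option.some.inj hx
        exact ⟨trivial, trivial, by show 0 ≤ cr w x x; rw [cr_self']⟩
  · rcases OT_cases hc with ⟨x1, y1, z1, rfl, rfl, rfl, -, h0⟩ | ⟨u, w, hHE, h⟩
    · obtain rfl := Option.some.inj hx
      refine ⟨?_, ?_, ?_⟩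
      · show 0 ≤ cr x1 x x; rw [cr_self']
      · show 0 ≤ cr x z1 x; rw [cr_self]
      · show 0 ≤ cr z1 x1 x; rw [cr_rot]; exact h0.le
    · rcases h with ⟨rfl, rfl, rfl⟩ | ⟨rfl, rfl, rfl⟩ | ⟨rfl, rfl, rfl⟩
      · obtain rfl := Option.some.inj hx
        exact ⟨trivial, by show 0 ≤ cr x u x; rw [cr_self], trivial⟩
      · obtain rfl := Option.some.inj hx
        exact ⟨by show 0 ≤ cr w x x; rw [cr_self'], trivial, trivial⟩
      · exact absurd hx (by simp)
  · rcases OT_cases hc with ⟨x1, y1, z1, rfl, rfl, rfl, -, h0⟩ | ⟨u, w, hHE, h⟩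
    · obtain rfl := Option.some.inj hx
      refine ⟨?_, ?_, ?_⟩
      · show 0 ≤ cr x1 y1 x; exact h0.le
      · show 0 ≤ cr y1 x x; rw [cr_self']
      · show 0 ≤ cr x x1 x; rw [cr_self]
    · rcases h with ⟨rfl, rfl, rfl⟩ | ⟨rfl, rfl, rfl⟩ | ⟨rfl, rfl, rfl⟩
      · obtain rfl := Option.some.inj hx
        exact ⟨trivial, by show 0 ≤ cr w x x; rw [cr_self'], trivial⟩
      · exact absurd hx (by simp)
      · obtain rfl := Option.some.inj hx
        exact ⟨trivial, trivial, by show 0 ≤ cr x u x; rw [cr_self]⟩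
  · obtain rfl := Option.some.inj hp
    exact ⟨hb.2.2.1.w, hb.2.2.2.1.w, hb.2.2.2.2.w⟩

/-- a point of a side of `C` is in no open cell -/
theorem side_not_cel (hG : GP P) (h : Coarse P B C T) {a b c : Option Pt} (hc : OT B C a b c)
    {u v z : Pt} (hs : Side C u v) (hz : z ∈ segment ℝ u v) : ¬ Cel a b c z := by
  intro hz2
  rcases OT_cases hc with ⟨x1, y1, z1, rfl, rfl, rfl, ht, h0⟩ | ⟨p, q, hHE, hh⟩
  · refine side_disj_int h.tri.toIs hs ht hz ?_
    rw [coe3]
    exact mem_int_of_cr hz2.1 hz2.2.1 hz2.2.2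
  · have hzB : z ∈ convexHull ℝ (B : Set Pt) := by
      obtain ⟨hu, hv⟩ := Side.mem h.tri hs
      exact (convex_convexHull ℝ _).segment_subset (subset_convexHull ℝ _ hu)
        (subset_convexHull ℝ _ hv) hz
    have h1 := cr_hull_nonneg hHE.2.2.2 hzB
    have h2 : 0 < cr q p z := by
      rcases hh with ⟨rfl, rfl, rfl⟩ | ⟨rfl, rfl, rfl⟩ | ⟨rfl, rfl, rfl⟩
      · exact hz2.2.1
      · exact hz2.1
      · exact hz2.2.2
    rw [cr_swap] at h2
    linarith

theorem rot_of_set {a b c a' b' c' : Pt} (h0 : 0 < cr a b c) (h1 : 0 < cr a' b' c')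
    (h : ({a, b, c} : Finset Pt) = {a', b', c'}) : Rot a b c a' b' c' := by
  have ma : a' ∈ ({a, b, c} : Finset Pt) := by rw [h]; simp
  have mb : b' ∈ ({a, b, c} : Finset Pt) := by rw [h]; simp
  have mc : c' ∈ ({a, b, c} : Finset Pt) := by rw [h]; simp
  simp only [Finset.mem_insert, Finset.mem_singleton] at ma mb mc
  obtain ⟨n1, n2, n3⟩ := ne_of_cr h1.ne'
  unfold Rot
  rcases ma with rfl | rfl | rfl <;> rcases mb with rfl | rfl | rfl <;>
    rcases mc with rfl | rfl | rfl <;>
    first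
      | exact absurd rfl n1
      | exact absurd rfl n2
      | exact absurd rfl n3
      | (left; exact ⟨rfl, rfl, rfl⟩)
      | (right; left; exact ⟨rfl, rfl, rfl⟩)
      | (right; right; exact ⟨rfl, rfl, rfl⟩)
      | (exfalso; have e1 := cr_swap a' b' c'; have e2 := cr_rot a' b' c'
         have e3 := cr_rot b' c' a'; have e4 := cr_swap b' c' a'; have e5 := cr_swap c' a' b'
         have e6 := cr_rot b' a' c'; have e7 := cr_rot a' c' b'; linarith)

/-- two open cells do not meet inside `conv P` -/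
theorem cel_uniq (hG : GP P) (h : Coarse P B C T) {z : Pt} (hz : z ∈ convexHull ℝ (P : Set Pt))
    {a b c a' b' c' : Option Pt} (h1 : OT B C a b c) (h2 : Cel a b c z) (h3 : OT B C a' b' c')
    (h4 : Cel a' b' c' z) : Rot a b c a' b' c' := by
  have fincap : ∀ {x y w p q : Pt}, {x, y, w} ∈ C → 0 < cr x y z → 0 < cr y w z → 0 < cr w x z →
      HE B p q → 0 < cr q p z → False := by
    intro x y w p q ht c1 c2 c3 hHE hc
    have hm := mem_int_of_cr c1 c2 c3
    have hzB : z ∈ convexHull ℝ (B : Set Pt) := by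
      apply convexHull_mono (fun v hv => h.tri.sub _ ht hv)
      rw [coe3]; exact interior_subset hm
    have h1 := cr_hull_nonneg hHE.2.2.2 hzB
    rw [cr_swap] at hc
    linarith
  rcases OT_cases h1 with ⟨x, y, w, rfl, rfl, rfl, ht, h0⟩ | ⟨p, q, hHE, hh⟩
  · rcases OT_cases h3 with ⟨x', y', w', rfl, rfl, rfl, ht', h0'⟩ | ⟨p', q', hHE', hh'⟩
    · have e : ({x, y, w} : Finset Pt) = {x', y', w'} := by
        by_contra hne
        have hd := h.tri.disj _ ht _ ht' hne
        rw [coe3, coe3] at hd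
        exact Set.disjoint_left.1 hd (mem_int_of_cr h2.1 h2.2.1 h2.2.2)
          (mem_int_of_cr h4.1 h4.2.1 h4.2.2)
      rcases rot_of_set h0 h0' e with ⟨rfl, rfl, rfl⟩ | ⟨rfl, rfl, rfl⟩ | ⟨rfl, rfl, rfl⟩
      · exact Or.inl ⟨rfl, rfl, rfl⟩
      · exact Or.inr (Or.inl ⟨rfl, rfl, rfl⟩)
      · exact Or.inr (Or.inr ⟨rfl, rfl, rfl⟩)
    · exfalso
      rcases hh' with ⟨rfl, rfl, rfl⟩ | ⟨rfl, rfl, rfl⟩ | ⟨rfl, rfl, rfl⟩
      · exact fincap ht h2.1 h2.2.1 h2.2.2 hHE' h4.2.1
      · exact fincap ht h2.1 h2.2.1 h2.2.2 hHE' h4.1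
      · exact fincap ht h2.1 h2.2.1 h2.2.2 hHE' h4.2.2
  · have hc : cr p q z < 0 := by
      have : 0 < cr q p z := by
        rcases hh with ⟨rfl, rfl, rfl⟩ | ⟨rfl, rfl, rfl⟩ | ⟨rfl, rfl, rfl⟩
        · exact h2.2.1
        · exact h2.1
        · exact h2.2.2
      rw [cr_swap] at this; linarith
    rcases OT_cases h3 with ⟨x', y', w', rfl, rfl, rfl, ht', h0'⟩ | ⟨p', q', hHE', hh'⟩
    · exfalso
      exact fincap ht' h4.1 h4.2.1 h4.2.2 hHE (by rw [cr_swap]; linarith)
    · have hc' : cr p' q' z < 0 := by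
        have : 0 < cr q' p' z := by
          rcases hh' with ⟨rfl, rfl, rfl⟩ | ⟨rfl, rfl, rfl⟩ | ⟨rfl, rfl, rfl⟩
          · exact h4.2.1
          · exact h4.1
          · exact h4.2.2
        rw [cr_swap] at this; linarith
      obtain ⟨rfl, rfl⟩ := cap_disj hG h.sub h.hv hHE hHE' hz hc hc'
      unfold Rot
      rcases hh with ⟨rfl, rfl, rfl⟩ | ⟨rfl, rfl, rfl⟩ | ⟨rfl, rfl, rfl⟩ <;>
      rcases hh' with ⟨rfl, rfl, rfl⟩ | ⟨rfl, rfl, rfl⟩ | ⟨rfl, rfl, rfl⟩ <;> simp

/-- refinements with prescribed segments inside the cells -/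
theorem exists_seg (hG : GP P) (h : Coarse P B C T) (E : Pt → Pt → Prop)
    (hE : ∀ x y, E x y → ∃ a b c, OT B C a b c ∧ Bdy P B a b c y ∧ Cc P B a b c (some x) ∧
      x ≠ y ∧ x ∈ P)
    (hn : ∀ a b c x y u v, OT B C a b c → E x y → E u v → Bdy P B a b c y → Bdy P B a b c v →
      ¬ Cross x y u v) :
    ∃ T', Coarse P B C T' ∧ ∀ x y, E x y → Side T' x y := by
  have hseg : ∀ {a b c : Option Pt} {x y : Pt} {u v : ℝ}, OT B C a b c → Bdy P B a b c y →
      Cc P B a b c (some x) → 0 < u → 0 < v → u + v = 1 → Cel a b c (u • x + v • y) := by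
    intro a b c x y u v hc hy hx hu hv huv
    exact (Wc_of_Cc hc hx).comb hu hv huv hy.2.2
  obtain ⟨T', hT', hs⟩ := complete hG h.big (fun x y => Side C x y ∨ E x y) (by
    intro x y hxy
    rcases hxy with hxy | hxy
    · have := Side.mem h.tri hxy
      exact ⟨h.sub this.1, h.sub this.2, hxy.1⟩
    · obtain ⟨a, b, c, -, hy, -, hne, hx⟩ := hE x y hxy
      exact ⟨hx, hy.1, hne⟩) (by
    intro x y u v hxy huv hcr
    obtain ⟨r, s, r', s', hr, hs, hrs, hr', hs', hrs', heq⟩ := hcr.point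
    rcases hxy with hxy | hxy
    · rcases huv with huv | huv
      · exact h.tri.noCross hxy huv hcr
      · obtain ⟨a, b, c, hc, hy, hx, -, -⟩ := hE u v huv
        refine side_not_cel hG h hc hxy (z := r • x + s • y)
          ⟨r, s, hr.le, hs.le, hrs, rfl⟩ ?_
        rw [heq]
        exact hseg hc hy hx hr' hs' hrs'
    · obtain ⟨a, b, c, hc, hy, hx, -, hxP⟩ := hE x y hxy
      have h1 := hseg hc hy hx hr hs hrs
      rcases huv with huv | huv
      · refine side_not_cel hG h hc huv (z := r' • u + s' • v)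
          ⟨r', s', hr'.le, hs'.le, hrs', rfl⟩ ?_
        rw [← heq]; exact h1
      · obtain ⟨a', b', c', hc', hv, hu, -, -⟩ := hE u v huv
        have h2 := hseg hc' hv hu hr' hs' hrs'
        rw [← heq] at h2
        have hz : r • x + s • y ∈ convexHull ℝ (P : Set Pt) :=
          (convex_convexHull ℝ _) (subset_convexHull ℝ _ hxP) (subset_convexHull ℝ _ hy.1)
            hr.le hs.le hrs
        have hrot := cel_uniq hG h hz hc h1 hc' h2
        have hv' : Bdy P B a b c v := by
          rcases hrot with ⟨rfl, rfl, rfl⟩ | ⟨rfl, rfl, rfl⟩ | ⟨rfl, rfl, rfl⟩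
          · exact hv
          · exact hv.rot.rot
          · exact hv.rot
        exact hn a b c x y u v hc hxy huv hy hv' hcr)
  exact ⟨T', ⟨h.sub, h.card, h.tri, h.hv, hT', fun u w hu => hs u w (Or.inl hu)⟩,
    fun x y hxy => hs x y (Or.inr hxy)⟩

/-! ### angles -/

theorem not_cross_share {x y u v : Pt} (h : u = x ∨ u = y ∨ v = x ∨ v = y) :
    ¬ Cross x y u v := by
  rintro ⟨h1, -⟩
  rcases h with rfl | rfl | rfl | rfl
  · rw [cr_self, zero_mul] at h1; exact lt_irrefl _ h1
  · rw [cr_self', zero_mul] at h1; exact lt_irrefl _ h1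
  · rw [cr_self, mul_zero] at h1; exact lt_irrefl _ h1
  · rw [cr_self', mul_zero] at h1; exact lt_irrefl _ h1

theorem exists_min_angle {b c : Pt} {K : Finset Pt} (hK : K.Nonempty)
    (h : ∀ x ∈ K, 0 < cr b c x) : ∃ z ∈ K, ∀ x ∈ K, 0 ≤ cr b z x := by
  obtain ⟨z, hz, hmax⟩ := Finset.exists_max_image K
    (fun x => ((c.1 - b.1) * (x.1 - b.1) + (c.2 - b.2) * (x.2 - b.2)) / cr b c x) hK
  refine ⟨z, hz, fun x hx => ?_⟩
  have h1 := hmax x hx
  have hz0 := h z hz
  have hx0 := h x hx
  rw [div_le_div_iff₀ hx0 hz0] at h1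
  have hn : 0 < (c.1 - b.1) ^ 2 + (c.2 - b.2) ^ 2 := by
    by_contra hcon
    push Not at hcon
    have e1 : c.1 - b.1 = 0 := by nlinarith [sq_nonneg (c.1 - b.1), sq_nonneg (c.2 - b.2)]
    have e2 : c.2 - b.2 = 0 := by nlinarith [sq_nonneg (c.1 - b.1), sq_nonneg (c.2 - b.2)]
    unfold cr at hz0
    rw [e1, e2] at hz0
    simp at hz0
  have e : ((c.1 - b.1) ^ 2 + (c.2 - b.2) ^ 2) * cr b z x =
      ((c.1 - b.1) * (z.1 - b.1) + (c.2 - b.2) * (z.2 - b.2)) * cr b c x -
      ((c.1 - b.1) * (x.1 - b.1) + (c.2 - b.2) * (x.2 - b.2)) * cr b c z := by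
    unfold cr; ring
  have e2 : 0 ≤ ((c.1 - b.1) ^ 2 + (c.2 - b.2) ^ 2) * cr b z x := by rw [e]; linarith
  exact nonneg_of_mul_nonneg_right e2 hn

/-- the segments to the special apex do not cross the star -/
theorem not_cross_special {a b c z y : Pt} (hz : Cel (some a) (some b) (some c) z)
    (hy : Cel (some a) (some b) (some c) y) (hm : 0 ≤ cr b z y) :
    ¬ Cross a y b z ∧ ¬ Cross a y c z := by
  obtain ⟨z1, z2, z3⟩ := hz
  obtain ⟨y1, y2, y3⟩ := hy
  simp only [lfo] at z1 z2 z3 y1 y2 y3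
  constructor
  · rintro ⟨-, h⟩
    have : cr b z a = cr a b z := by unfold cr; ring
    rw [this] at h
    exact absurd h (not_lt.2 (mul_nonneg z1.le hm))
  · rintro ⟨h1, h2⟩
    have e1 : cr a y c = cr c a y := by unfold cr; ring
    rw [e1] at h1
    have h3 : cr a y z < 0 := by
      by_contra hcon
      push Not at hcon
      exact absurd h1 (not_lt.2 (mul_nonneg y3.le hcon))
    have e2 : cr c z a = - cr c a z := by unfold cr; ring
    rw [e2] at h2
    have h4 : 0 < cr c z y := by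
      by_contra hcon
      push Not at hcon
      nlinarith [mul_nonneg z3.le (sub_nonneg.2 hcon)]
    have key : cr b c z * cr a y z + cr c a z * (- cr b z y) + cr a b z * (- cr c z y) = 0 := by
      unfold cr; ring
    nlinarith [mul_pos z2 (neg_pos.2 h3), mul_nonneg z3.le hm, mul_pos z1 h4]

/-- apex of a side in a star at the first end -/
theorem apex_first (hG : GP P) (hT : STri P T) {p q y : Pt}
    (h : OT P T (some p) (some q) (some y)) {x : Pt} (hx : Side T p x) (hpq : 0 < cr p q x) :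
    0 ≤ cr p y x := by
  by_contra hcon
  push Not at hcon
  refine no_side_in' hT h.1 hx hpq ?_ h.2
  have : cr p x y = - cr p y x := by unfold cr; ring
  rw [this]; linarith

/-- apex of a side in a star at the second end -/
theorem apex_second (hG : GP P) (hT : STri P T) {p q y : Pt}
    (h : OT P T (some p) (some q) (some y)) {x : Pt} (hx : Side T q x) (hpq : 0 < cr p q x) :
    0 ≤ cr q x y := by
  by_contra hcon
  push Not at hcon
  have h1 : {q, y, p} ∈ T := by rw [perm_bca]; exact h.1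
  refine no_side_in' hT h1 hx ?_ ?_ ?_
  · have : cr q y x = - cr q x y := by unfold cr; ring
    rw [this]; linarith
  · have : cr q x p = cr p q x := by unfold cr; ring
    rw [this]; exact hpq
  · have : cr q y p = cr p q y := by unfold cr; ring
    rw [this]; exact h.2

theorem corner_mem {a b c : Option Pt} (h : Coarse P B C T) (hc : OT B C a b c) {x : Pt}
    (hx : some x = a ∨ some x = b ∨ some x = c) : x ∈ B := by
  rw [← mem_Wp_some]
  rcases hx with rfl | rfl | rfl
  · exact OT_mem h.tri _ _ _ hc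
  · exact OT_mem h.tri _ _ _ (OT_rot _ _ _ hc)
  · exact OT_mem h.tri _ _ _ (OT_rot _ _ _ (OT_rot _ _ _ hc))

theorem bdy_of_cel (h : Coarse P B C T) {a b c : Pt}
    (hc : OT B C (some a) (some b) (some c)) {p : Pt} (hp : p ∈ P)
    (h1 : 0 < cr a b p) (h2 : 0 < cr b c p) (h3 : 0 < cr c a p) :
    Bdy P B (some a) (some b) (some c) p := by
  refine ⟨hp, ?_, h1, h2, h3⟩
  intro hpB
  have hm := mem_int_of_cr h1 h2 h3
  have h4 := h.tri.strict _ hc.1 p hpB (by rw [coe3]; exact interior_subset hm)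
  exact vertex_not_int hc.2 h4 hm

/-- the canonical triangle -/
theorem special_tri (hG : GP P) (h : Coarse P B C T) {a b c z : Pt}
    (hc : OT B C (some a) (some b) (some c)) (hz : Bdy P B (some a) (some b) (some c) z)
    (hmin : ∀ x, Bdy P B (some a) (some b) (some c) x → 0 ≤ cr b z x)
    (h1 : Side T b z) (h2 : Side T c z) : OT P T (some b) (some c) (some z) := by
  have hbB := corner_mem h hc (x := b) (Or.inr (Or.inl rfl))
  have hcB := corner_mem h hc (x := c) (Or.inr (Or.inr rfl))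
  obtain ⟨z1, z2, z3⟩ := hz.2.2
  simp only [lfo] at z1 z2 z3
  have habc := hc.2
  have hbc : Side T b c := h.ref _ _ ⟨(ne_of_cr habc.ne').2.2, _, hc.1, by simp, by simp⟩
  refine ⟨tri_mem_of_sides hG h.big (h.sub hbB) (h.sub hcB) hz.1 z2 hbc h2 h1.symm ?_, z2⟩
  intro p hp p1 p2 p3
  have e1 : cr b c z * cr a b p = cr z b p * cr a b c + cr b c p * cr a b z := by
    unfold cr; ring
  have e2 : cr b c z * cr c a p = cr c z p * cr c a b + cr b c p * cr c a z := by
    unfold cr; ring
  have hcab : 0 < cr c a b := by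
    have : cr c a b = cr a b c := by unfold cr; ring
    rw [this]; exact habc
  have q1 : 0 < cr a b p := by
    have : 0 < cr b c z * cr a b p := by
      rw [e1]; exact add_pos (mul_pos p3 habc) (mul_pos p1 z1)
    exact (pos_iff_pos_of_mul_pos this).1 z2
  have q3 : 0 < cr c a p := by
    have : 0 < cr b c z * cr c a p := by
      rw [e2]; exact add_pos (mul_pos p2 hcab) (mul_pos p1 z3)
    exact (pos_iff_pos_of_mul_pos this).1 z2
  have h4 := hmin p (bdy_of_cel h hc hp q1 p1 q3)
  have : cr z b p = - cr b z p := by unfold cr; ring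
  linarith

/-- labels are determined up to rotation -/
theorem bdy_rot {a b c a' b' c' : Option Pt} {x : Pt} (h : Rot a b c a' b' c')
    (hx : Bdy P B a' b' c' x) : Bdy P B a b c x := by
  rcases h with ⟨rfl, rfl, rfl⟩ | ⟨rfl, rfl, rfl⟩ | ⟨rfl, rfl, rfl⟩
  · exact hx
  · exact hx.rot.rot
  · exact hx.rot

theorem bdy_rot' {a b c a' b' c' : Option Pt} {x : Pt} (h : Rot a b c a' b' c')
    (hx : Bdy P B a b c x) : Bdy P B a' b' c' x := by
  rcases h with ⟨rfl, rfl, rfl⟩ | ⟨rfl, rfl, rfl⟩ | ⟨rfl, rfl, rfl⟩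
  · exact hx
  · exact hx.rot
  · exact hx.rot.rot

theorem rot_some {a b c a' b' c' : Pt} (h : Rot a b c a' b' c') :
    Rot (some a) (some b) (some c) (some a') (some b') (some c') := by
  rcases h with ⟨rfl, rfl, rfl⟩ | ⟨rfl, rfl, rfl⟩ | ⟨rfl, rfl, rfl⟩
  · exact Or.inl ⟨rfl, rfl, rfl⟩
  · exact Or.inr (Or.inl ⟨rfl, rfl, rfl⟩)
  · exact Or.inr (Or.inr ⟨rfl, rfl, rfl⟩)

theorem set_of_rot {a b c a' b' c' : Pt}
    (h : Rot (some a) (some b) (some c) (some a') (some b') (some c')) :
    ({a, b, c} : Finset Pt) = {a', b', c'} := by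
  rcases h with ⟨h1, h2, h3⟩ | ⟨h1, h2, h3⟩ | ⟨h1, h2, h3⟩ <;>
    (obtain rfl := Option.some.inj h1; obtain rfl := Option.some.inj h2
     obtain rfl := Option.some.inj h3)
  · rfl
  · ext x; simp only [Finset.mem_insert, Finset.mem_singleton]; tauto
  · ext x; simp only [Finset.mem_insert, Finset.mem_singleton]; tauto

/-- two labelled faces with a common body point are equal -/
theorem face_eq (hG : GP P) (h : Coarse P B C T) {a b c a' b' c' x : Pt}
    (h1 : OT B C (some a) (some b) (some c)) (h2 : Bdy P B (some a) (some b) (some c) x)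
    (h3 : OT B C (some a') (some b') (some c'))
    (h4 : Bdy P B (some a') (some b') (some c') x) :
    ({a, b, c} : Finset Pt) = {a', b', c'} :=
  set_of_rot (cell_uniq hG h h1 h2 h3 h4)

/-- T_can -/
theorem exists_can (hG : GP P) (h : Coarse P B C T) : ∃ Tc, Coarse P B C Tc ∧ Can P B C Tc := by
  have hlab : ∀ F ∈ C, ∃ a b c z : Pt, F = {a, b, c} ∧ 0 < cr a b c ∧
      ((∃ x, Bdy P B (some a) (some b) (some c) x) → Bdy P B (some a) (some b) (some c) z ∧
        ∀ x, Bdy P B (some a) (some b) (some c) x → 0 ≤ cr b z x) := by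
    intro F hF
    obtain ⟨a, b, c, rfl, h0⟩ := repr_tri (h.tri.card F hF) (h.tri.nondeg F hF)
    by_cases hx : ∃ x, Bdy P B (some a) (some b) (some c) x
    · obtain ⟨x, hx⟩ := hx
      obtain ⟨z, hz, hmin⟩ := exists_min_angle (b := b) (c := c)
        (K := P.filter (fun x => Bdy P B (some a) (some b) (some c) x))
        ⟨x, Finset.mem_filter.2 ⟨hx.1, hx⟩⟩ (fun x hx => (Finset.mem_filter.1 hx).2.2.2.2.1)
      exact ⟨a, b, c, z, rfl, h0, fun _ => ⟨(Finset.mem_filter.1 hz).2,
        fun x hx => hmin x (Finset.mem_filter.2 ⟨hx.1, hx⟩)⟩⟩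
    · exact ⟨a, b, c, a, rfl, h0, fun hx' => absurd hx' hx⟩
  choose! la lb lc lz hl using hlab
  have hOT : ∀ F ∈ C, OT B C (some (la F)) (some (lb F)) (some (lc F)) := by
    intro F hF
    exact ⟨by rw [← (hl F hF).1]; exact hF, (hl F hF).2.1⟩
  obtain ⟨Tc, hTc, hs⟩ := exists_seg hG h (fun x y => ∃ F ∈ C,
      Bdy P B (some (la F)) (some (lb F)) (some (lc F)) y ∧
      (x = la F ∨ ((x = lb F ∨ x = lc F) ∧ y = lz F))) (by
    rintro x y ⟨F, hF, hy, hx⟩
    have hx' : some x = some (la F) ∨ some x = some (lb F) ∨ some x = some (lc F) := by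
      rcases hx with rfl | ⟨rfl | rfl, -⟩ <;> simp
    have hxB := corner_mem h (hOT F hF) hx'
    refine ⟨_, _, _, hOT F hF, hy, ?_, ?_, h.sub hxB⟩
    · rcases hx' with h1 | h1 | h1
      · exact Or.inl h1
      · exact Or.inr (Or.inl h1)
      · exact Or.inr (Or.inr (Or.inl h1))
    · rintro rfl; exact hy.2.1 hxB) (by
    rintro a b c x y u v hc ⟨F, hF, hy, hx⟩ ⟨F', hF', hv, hu⟩ hby hbv
    have r1 := cell_uniq hG h hc hby (hOT F hF) hy
    have hvF : Bdy P B (some (la F)) (some (lb F)) (some (lc F)) v := bdy_rot' r1 hbv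
    have e : F = F' := by
      have := face_eq hG h (hOT F hF) hvF (hOT F' hF') hv
      rw [← (hl F hF).1, ← (hl F' hF').1] at this
      exact this
    subst e
    have hmin := (hl F hF).2.2 ⟨y, hy⟩
    rcases hx with rfl | ⟨hx, rfl⟩
    · rcases hu with rfl | ⟨hu, rfl⟩
      · exact not_cross_share (Or.inl rfl)
      · have hsp := not_cross_special hv.2.2 hy.2.2 (hmin.2 y hy)
        rcases hu with rfl | rfl
        · exact hsp.1
        · exact hsp.2
    · rcases hu with rfl | ⟨hu, rfl⟩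
      · have hsp := not_cross_special hy.2.2 hv.2.2 (hmin.2 v hv)
        rcases hx with rfl | rfl
        · exact fun hcr => hsp.1 hcr.swap
        · exact fun hcr => hsp.2 hcr.swap
      · exact not_cross_share (Or.inr (Or.inr (Or.inr rfl))))
  refine ⟨Tc, hTc, ?_⟩
  rintro a b c hc ⟨x, hx⟩
  have hF : ({a, b, c} : Finset Pt) ∈ C := hc.1
  set F : Finset Pt := {a, b, c} with hFdef
  obtain ⟨l1, l2, l3⟩ := hl F hF
  have hrot : Rot a b c (la F) (lb F) (lc F) := rot_of_set hc.2 l2 l1
  have hx' := bdy_rot' (rot_some hrot) hx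
  obtain ⟨m1, m2⟩ := l3 ⟨x, hx'⟩
  refine ⟨la F, lb F, lc F, hrot, fun x hx => hs _ _ ⟨F, hF, hx, Or.inl rfl⟩, lz F, m1, ?_, m2⟩
  exact special_tri hG hTc (hOT F hF) m1 m2 (hs _ _ ⟨F, hF, m1, Or.inr ⟨Or.inl rfl, rfl⟩⟩)
    (hs _ _ ⟨F, hF, m1, Or.inr ⟨Or.inr rfl, rfl⟩⟩)

/-! ### T_chi -/

/-- all points of a body have the same colour -/
theorem body_col (hm : Mino P B C col) {a b c : Option Pt} (hc : OT B C a b c) {x y : Pt}
    (hx : Bdy P B a b c x) (hy : Bdy P B a b c y) : col (some x) = col (some y) := by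
  have x1 := hm a b c x hc hx
  have x2 := hm b c a x (OT_rot _ _ _ hc) hx.rot
  have x3 := hm c a b x (OT_rot _ _ _ (OT_rot _ _ _ hc)) hx.rot.rot
  have y1 := hm a b c y hc hy
  have y2 := hm b c a y (OT_rot _ _ _ hc) hy.rot
  have y3 := hm c a b y (OT_rot _ _ _ (OT_rot _ _ _ hc)) hy.rot.rot
  rcases ha : col a with _ | _ <;> rcases hb : col b with _ | _ <;>
    rcases hcc : col c with _ | _ <;> rcases hx' : col (some x) with _ | _ <;>
    rcases hy' : col (some y) with _ | _ <;> simp_all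

theorem ed_of_side (hG : GP P) (hT : STri P T) {x y : Pt} (h : Side T x y) :
    Ed (OT P T) (some x) (some y) := (side_ed hG hT).1 h

/-- T_chi -/
theorem exists_chi {Tc : Finset (Finset Pt)} (hG : GP P) (h : Coarse P B C Tc)
    (hcan : Can P B C Tc) (hcol : col none = false) (hm : Mino P B C col) :
    ∃ T, Coarse P B C T ∧ Dom P B T col ∧ Keep P B C Tc T col := by
  have hlab : ∀ F ∈ C, ∃ a b c z : Pt, F = {a, b, c} ∧ 0 < cr a b c ∧
      ((∃ x, Bdy P B (some a) (some b) (some c) x) →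
        (∀ x, Bdy P B (some a) (some b) (some c) x → Side Tc a x) ∧
        Bdy P B (some a) (some b) (some c) z ∧ OT P Tc (some b) (some c) (some z) ∧
        ∀ x, Bdy P B (some a) (some b) (some c) x → 0 ≤ cr b z x) := by
    intro F hF
    obtain ⟨a, b, c, rfl, h0⟩ := repr_tri (h.tri.card F hF) (h.tri.nondeg F hF)
    by_cases hx : ∃ x, Bdy P B (some a) (some b) (some c) x
    · have hc : OT B C (some a) (some b) (some c) := ⟨hF, h0⟩
      obtain ⟨a', b', c', hrot, h1, z, h2, h3, h4⟩ := hcan a b c hc hx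
      have hset : ({a, b, c} : Finset Pt) = {a', b', c'} := set_of_rot (rot_some hrot)
      refine ⟨a', b', c', z, hset, ?_, fun _ => ⟨h1, h2, h3, h4⟩⟩
      rcases hrot with ⟨rfl, rfl, rfl⟩ | ⟨rfl, rfl, rfl⟩ | ⟨rfl, rfl, rfl⟩
      · exact h0
      · rw [← cr_rot]; exact h0
      · rw [cr_rot]; exact h0
    · exact ⟨a, b, c, a, rfl, h0, fun hx' => absurd hx' hx⟩
  choose! la lb lc lz hl using hlab
  have hOT : ∀ F ∈ C, OT B C (some (la F)) (some (lb F)) (some (lc F)) := by
    intro F hF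
    exact ⟨by rw [← (hl F hF).1]; exact hF, (hl F hF).2.1⟩
  -- the segments
  let E1 : Pt → Pt → Prop := fun x y => ∃ F ∈ C,
      Bdy P B (some (la F)) (some (lb F)) (some (lc F)) y ∧
      ((col (some (la F)) ≠ col (some y) ∧
        (x = la F ∨ ((x = lb F ∨ x = lc F) ∧ y = lz F))) ∨
       (col (some (la F)) = col (some y) ∧ x = lb F))
  let E2 : Pt → Pt → Prop := fun x y => ∃ u w, HE B u w ∧
      Bdy P B (some w) (some u) none y ∧
      x = (if col (some u) = col (some y) then w else u)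
  have hE1 : ∀ x y, E1 x y → ∃ a b c, OT B C a b c ∧ Bdy P B a b c y ∧
      Cc P B a b c (some x) ∧ x ≠ y ∧ x ∈ P := by
    rintro x y ⟨F, hF, hy, hx⟩
    have hx' : some x = some (la F) ∨ some x = some (lb F) ∨ some x = some (lc F) := by
      rcases hx with ⟨-, rfl | ⟨rfl | rfl, -⟩⟩ | ⟨-, rfl⟩ <;> simp
    have hxB := corner_mem h (hOT F hF) hx'
    refine ⟨_, _, _, hOT F hF, hy, ?_, ?_, h.sub hxB⟩
    · rcases hx' with h1 | h1 | h1
      · exact Or.inl h1
      · exact Or.inr (Or.inl h1)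
      · exact Or.inr (Or.inr (Or.inl h1))
    · rintro rfl; exact hy.2.1 hxB
  have hE2 : ∀ x y, E2 x y → ∃ a b c, OT B C a b c ∧ Bdy P B a b c y ∧
      Cc P B a b c (some x) ∧ x ≠ y ∧ x ∈ P := by
    rintro x y ⟨u, w, hHE, hy, hx⟩
    have hc : OT B C (some w) (some u) none := hHE
    have hx' : some x = some w ∨ some x = some u ∨ some x = none := by
      rw [hx]; split_ifs <;> simp
    have hxB := corner_mem h hc hx'
    refine ⟨_, _, _, hc, hy, ?_, ?_, h.sub hxB⟩
    · rcases hx' with h1 | h1 | h1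
      · exact Or.inl h1
      · exact Or.inr (Or.inl h1)
      · exact Or.inr (Or.inr (Or.inl h1))
    · rintro rfl; exact hy.2.1 hxB
  obtain ⟨T, hT, hs⟩ := exists_seg hG h (fun x y => E1 x y ∨ E2 x y) (by
    rintro x y (hxy | hxy)
    · exact hE1 x y hxy
    · exact hE2 x y hxy) (by
    rintro a b c x y u v hc hxy huv hby hbv
    rcases hxy with ⟨F, hF, hy, hx⟩ | ⟨p, q, hHE, hy, hx⟩
    · have r1 := cell_uniq hG h hc hby (hOT F hF) hy
      have hvF : Bdy P B (some (la F)) (some (lb F)) (some (lc F)) v := bdy_rot' r1 hbv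
      rcases huv with ⟨F', hF', hv, hu⟩ | ⟨p', q', hHE', hv, hu⟩
      · have e : F = F' := by
          have := face_eq hG h (hOT F hF) hvF (hOT F' hF') hv
          rw [← (hl F hF).1, ← (hl F' hF').1] at this
          exact this
        subst e
        have hcc := body_col hm (hOT F hF) hy hv
        have hmin := ((hl F hF).2.2 ⟨y, hy⟩).2.2.2
        rcases hx with ⟨hcx, hx⟩ | ⟨hcx, rfl⟩
        · rcases hu with ⟨hcu, hu⟩ | ⟨hcu, rfl⟩
          · rcases hx with rfl | ⟨hx, rfl⟩
            · rcases hu with rfl | ⟨hu, rfl⟩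
              · exact not_cross_share (Or.inl rfl)
              · have hsp := not_cross_special hv.2.2 hy.2.2 (hmin y hy)
                rcases hu with rfl | rfl
                · exact hsp.1
                · exact hsp.2
            · rcases hu with rfl | ⟨hu, rfl⟩
              · have hsp := not_cross_special hy.2.2 hv.2.2 (hmin v hv)
                rcases hx with rfl | rfl
                · exact fun hcr => hsp.1 hcr.swap
                · exact fun hcr => hsp.2 hcr.swap
              · exact not_cross_share (Or.inr (Or.inr (Or.inr rfl)))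
          · exact absurd (hcu.trans hcc.symm) hcx
        · rcases hu with ⟨hcu, hu⟩ | ⟨hcu, rfl⟩
          · exact absurd (hcx.trans hcc) hcu
          · exact not_cross_share (Or.inl rfl)
      · exfalso
        have hc2 : OT B C (some q') (some p') none := hHE'
        have := cell_uniq hG h (hOT F hF) hvF hc2 hv
        rcases this with ⟨-, -, h3⟩ | ⟨-, -, h3⟩ | ⟨-, -, h3⟩ <;> exact absurd h3 (by simp)
    · have hc1 : OT B C (some q) (some p) none := hHE
      have r1 := cell_uniq hG h hc hby hc1 hy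
      have hvF : Bdy P B (some q) (some p) none v := bdy_rot' r1 hbv
      rcases huv with ⟨F', hF', hv, hu⟩ | ⟨p', q', hHE', hv, hu⟩
      · exfalso
        have := cell_uniq hG h (hOT F' hF') hv hc1 hvF
        rcases this with ⟨-, -, h3⟩ | ⟨-, -, h3⟩ | ⟨-, -, h3⟩ <;> exact absurd h3 (by simp)
      · have hc2 : OT B C (some q') (some p') none := hHE'
        have hr := cell_uniq hG h hc1 hvF hc2 hv
        have e : q = q' ∧ p = p' := by
          rcases hr with ⟨h1, h2, -⟩ | ⟨-, h2, -⟩ | ⟨h1, -, -⟩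
          · exact ⟨(Option.some.inj h1).symm, (Option.some.inj h2).symm⟩
          · exact absurd h2 (by simp)
          · exact absurd h1 (by simp)
        obtain ⟨rfl, rfl⟩ := e
        have hcc := body_col hm hc1 hy hv
        rw [hx, hu, hcc]
        exact not_cross_share (Or.inl rfl))
  have hT' : STri P T := hT.big.strict hG
  have hTc' : STri P Tc := h.big.strict hG
  refine ⟨T, hT, ?_, ?_⟩
  · -- domination
    intro x hx hxB
    obtain ⟨a, b, c, hc, hb⟩ := cell_ex hG h hx hxB
    have key : ∀ d : Pt, d ∈ B → col (some d) ≠ col (some x) → Side T d x →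
        ∃ d ∈ Wp B, col d ≠ col (some x) ∧ Ed (OT P T) (some x) d := by
      intro d hd hcd hsd
      exact ⟨some d, mem_Wp_some.2 hd, hcd, ed_of_side hG hT' hsd.symm⟩
    rcases OT_cases hc with ⟨x1, y1, z1, rfl, rfl, rfl, ht, h0⟩ | ⟨u, w, hHE, hh⟩
    · set F : Finset Pt := {x1, y1, z1} with hF
      obtain ⟨l1, l2, l3⟩ := hl F ht
      have hrot : Rot x1 y1 z1 (la F) (lb F) (lc F) := rot_of_set h0 l2 l1
      have hb' := bdy_rot' (rot_some hrot) hb
      by_cases hca : col (some (la F)) = col (some x)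
      · refine key (lb F) (corner_mem h (hOT F ht) (Or.inr (Or.inl rfl))) ?_
          (hs _ _ (Or.inl ⟨F, ht, hb', Or.inr ⟨hca, rfl⟩⟩))
        exact fun hcb => hm _ _ _ x (hOT F ht) hb' ⟨hca, hcb⟩
      · exact key (la F) (corner_mem h (hOT F ht) (Or.inl rfl)) hca
          (hs _ _ (Or.inl ⟨F, ht, hb', Or.inl ⟨hca, Or.inl rfl⟩⟩))
    · have hc' : OT B C (some w) (some u) none := hHE
      have hb' : Bdy P B (some w) (some u) none x := by
        rcases hh with ⟨rfl, rfl, rfl⟩ | ⟨rfl, rfl, rfl⟩ | ⟨rfl, rfl, rfl⟩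
        · exact hb.rot
        · exact hb
        · exact hb.rot.rot
      have hside := hs _ _ (Or.inr ⟨u, w, hHE, hb', rfl⟩ :
        E1 (if col (some u) = col (some x) then w else u) x ∨
        E2 (if col (some u) = col (some x) then w else u) x)
      by_cases hcu : col (some u) = col (some x)
      · rw [if_pos hcu] at hside
        refine key w hHE.2.1 ?_ hside
        exact fun hcw => hm _ _ _ x hc' hb' ⟨hcw, hcu⟩
      · rw [if_neg hcu] at hside
        exact key u hHE.1 hcu hside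
  · -- the canonical apexes
    intro p q r z hc hzB hpq hz
    have hzb : Bdy P B (some p) (some q) (some r) z := by
      rcases locside hG h hc hz with h1 | ⟨p', h1, h2⟩
      · exfalso
        apply hzB
        exact corner_mem h hc (Or.inr (Or.inr h1))
      · obtain rfl := Option.some.inj h1
        exact h2
    have hcp : col (some p) ≠ col (some z) :=
      fun h1 => hm _ _ _ z hc hzb ⟨h1, hpq.symm.trans h1⟩
    have hcq : col (some q) ≠ col (some z) := fun h1 => hcp (hpq.trans h1)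
    obtain ⟨z', hz'b, hz'⟩ := apex hG hT hc hzb
    have hcz := body_col hm hc hzb hz'b
    have ht : ({p, q, r} : Finset Pt) ∈ C := hc.1
    set F : Finset Pt := {p, q, r} with hF
    obtain ⟨l1, l2, l3⟩ := hl F ht
    have hrot : Rot p q r (la F) (lb F) (lc F) := rot_of_set hc.2 l2 l1
    have hrot' := rot_some hrot
    obtain ⟨m1, m2, m3, m4⟩ := l3 ⟨z, bdy_rot' hrot' hzb⟩
    -- equality of the two apexes
    have hend : (0 ≤ cr p z z' ∧ 0 ≤ cr p z' z) ∨ (0 ≤ cr q z z' ∧ 0 ≤ cr q z' z) → z' = z := by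
      intro hh
      by_contra hne
      have hpP := h.sub (corner_mem h hc (x := p) (Or.inl rfl))
      have hqP := h.sub (corner_mem h hc (x := q) (Or.inr (Or.inl rfl)))
      have e1 : ∀ v, cr v z' z = - cr v z z' := by intro v; unfold cr; ring
      rcases hh with ⟨h1, h2⟩ | ⟨h1, h2⟩
      · rw [e1] at h2
        refine hG p hpP z hzb.1 z' hz'b.1 ?_ ?_ (Ne.symm hne) (by linarith)
        · rintro rfl; exact hzB (corner_mem h hc (Or.inl rfl))
        · rintro rfl; exact hz'b.2.1 (corner_mem h hc (Or.inl rfl))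
      · rw [e1] at h2
        refine hG q hqP z hzb.1 z' hz'b.1 ?_ ?_ (Ne.symm hne) (by linarith)
        · rintro rfl; exact hzB (corner_mem h hc (Or.inr (Or.inl rfl)))
        · rintro rfl; exact hz'b.2.1 (corner_mem h hc (Or.inr (Or.inl rfl)))
    have hbz := hzb.2.2.1
    have hbz' := hz'b.2.2.1
    simp only [lfo] at hbz hbz'
    rcases hrot with ⟨ea, eb, ec⟩ | ⟨ea, eb, ec⟩ | ⟨ea, eb, ec⟩
    · -- the side `ab`
      have st : ∀ x, Bdy P B (some p) (some q) (some r) x → Side T p x := by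
        intro x hx
        rw [← ea]
        refine hs _ _ (Or.inl ⟨F, ht, bdy_rot' hrot' hx, Or.inl ⟨?_, Or.inl rfl⟩⟩)
        rw [ea, ← body_col hm hc hzb hx]; exact hcp
      have stc : ∀ x, Bdy P B (some p) (some q) (some r) x → Side Tc p x := by
        intro x hx
        rw [← ea]
        exact m1 x (bdy_rot' hrot' hx)
      have := hend (Or.inl ⟨apex_first hG hTc' hz (stc z' hz'b) hbz',
        apex_first hG hT' hz' (st z hzb) hbz⟩)
      rw [← this]; exact hz'
    · -- the side `ca`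
      have st : ∀ x, Bdy P B (some p) (some q) (some r) x → Side T q x := by
        intro x hx
        rw [← ea]
        refine hs _ _ (Or.inl ⟨F, ht, bdy_rot' hrot' hx, Or.inl ⟨?_, Or.inl rfl⟩⟩)
        rw [ea, ← body_col hm hc hzb hx]; exact hcq
      have stc : ∀ x, Bdy P B (some p) (some q) (some r) x → Side Tc q x := by
        intro x hx
        rw [← ea]
        exact m1 x (bdy_rot' hrot' hx)
      have := hend (Or.inr ⟨apex_second hG hT' hz' (st z hzb) hbz,
        apex_second hG hTc' hz (stc z' hz'b) hbz'⟩)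
      rw [← this]; exact hz'
    · -- the side `bc`
      rw [eb, ec] at m3
      have e0 : (some z : Option Pt) = some (lz F) :=
        OT_fn hG hTc' (h.card.trans (Finset.card_le_card h.sub)) _ _ _ _ hz m3
      obtain rfl : z = lz F := Option.some.inj e0
      by_cases hca : col (some (la F)) = col (some (lz F))
      · -- star at `b = p`
        have st : ∀ x, Bdy P B (some p) (some q) (some r) x → Side T p x := by
          intro x hx
          rw [← eb]
          refine hs _ _ (Or.inl ⟨F, ht, bdy_rot' hrot' hx, Or.inr ⟨?_, rfl⟩⟩)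
          rw [← body_col hm hc hzb hx]; exact hca
        have h5 := m4 z' (bdy_rot' hrot' hz'b)
        rw [eb] at h5
        have := hend (Or.inl ⟨h5, apex_first hG hT' hz' (st _ hzb) hbz⟩)
        rw [← this]; exact hz'
      · have h6 := special_tri hG hT (hOT F ht) m2 m4
          (hs _ _ (Or.inl ⟨F, ht, m2, Or.inl ⟨hca, Or.inr ⟨Or.inl rfl, rfl⟩⟩⟩))
          (hs _ _ (Or.inl ⟨F, ht, m2, Or.inl ⟨hca, Or.inr ⟨Or.inr rfl, rfl⟩⟩⟩))
        rw [eb, ec] at h6
        exact h6

end MP91a79a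

end
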