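import Pool.Agent.Lib.MP_91a79a_co.E.Sec
import Pool.Agent.Lib.MP_91a79a_co.Fin3

/-!
The existence half `HypE` (MP_91a79a_co) and the main theorem: every triangulation of `n` points in
general position is `o(n)` simultaneous flips away from a Hamiltonian one.
-/

noncomputable section

namespace MP91a79a

open Set Classical

/-- the existence half -/
theorem hypE : HypE := by
  intro M
  refine ⟨2 * (M + (M + 1) ^ 2 + 1) ^ 2 + 2 ^ (M + (M + 1) ^ 2), ?_⟩
  intro P B C T hG hM h
  obtain ⟨G, col, Tc, hTc, hS, hn, hq⟩ := sec3 hG h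
  have hB2 : 2 ≤ B.card := le_trans (by norm_num) h.card
  obtain ⟨T2, h1, h2, h3⟩ := hS.ham hn hB2 (Dst P B Tc) Finset.subset_union_left hq
    (fun x hx hxD d d' hd hW => hxD (Finset.mem_union_right _ (Finset.mem_filter.2
      ⟨hx, d, hW.1, d', hW.2, OT_rot _ _ _ hd⟩)))
  have hcard : (Dst P B Tc).card ≤ M + (M + 1) ^ 2 := by
    refine (Dst_card (OT_fn hG hS.tri hS.card)).trans ?_
    exact Nat.add_le_add hM (Nat.pow_le_pow_left (Nat.add_le_add_right hM 1) 2)
  refine ⟨Tc, T2, hTc, h1, h2, h3.trans ?_⟩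
  exact Nat.add_le_add (Nat.mul_le_mul_left 2 (Nat.pow_le_pow_left (Nat.add_le_add_right hcard 1) 2))
    (Nat.pow_le_pow_right (by norm_num) hcard)

/-- MAIN THEOREM -/
theorem main_gp : ∃ f : ℕ → ℕ,
    (fun n => (f n : ℝ)) =o[Filter.atTop] (fun n => (n : ℝ)) ∧
    ∀ (P : Finset Pt) (T : Finset (Finset Pt)), GP P → 3 ≤ P.card → IsTriangulation P T →
      ∃ k ≤ f P.card, ∃ T', Reach P k T T' ∧ (graph P T').IsHamiltonian :=
  reduction' hypE

end MP91a79a

end
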