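import Pool.Agent.Lib.MP_91a79a_co.E.Def

/-! piece S2 (MP_91a79a_co): every body point is in exactly one cell -/

noncomputable section

namespace MP91a79a

open Set Classical

variable {P B : Finset Pt} {C T : Finset (Finset Pt)}

private theorem S2_cap {a b c : Option Pt} {p : Pt} (h2 : Bdy P B a b c p)
    {u w : Pt} (h : (a = none ∧ b = some w ∧ c = some u) ∨
      (a = some w ∧ b = some u ∧ c = none) ∨ (a = some u ∧ b = none ∧ c = some w)) :
    cr u w p < 0 := by
  obtain ⟨-, -, g1, g2, g3⟩ := h2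
  rw [cr_swap]
  rcases h with ⟨rfl, rfl, rfl⟩ | ⟨rfl, rfl, rfl⟩ | ⟨rfl, rfl, rfl⟩
  · have : 0 < cr w u p := g2
    linarith
  · have : 0 < cr w u p := g1
    linarith
  · have : 0 < cr w u p := g3
    linarith

private theorem S2_fin {x y z p : Pt} (h2 : Bdy P B (some x) (some y) (some z) p) :
    p ∈ interior (convexHull ℝ (({x, y, z} : Finset Pt) : Set Pt)) := by
  obtain ⟨-, -, g1, g2, g3⟩ := h2
  rw [coe3]
  exact mem_int_of_cr g1 g2 g3

private theorem S2_fincap (h : Coarse P B C T) {x y z p u w : Pt} (ht : {x, y, z} ∈ C)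
    (h2 : Bdy P B (some x) (some y) (some z) p) (hE : HE B u w) (hc : cr u w p < 0) : False := by
  have h3 := tri_hull_sub h.tri.toIs ht (interior_subset (S2_fin h2))
  have h4 := cr_hull_nonneg hE.2.2.2 h3
  linarith

/-- PROOF. If `x ∈ convexHull B`: `x` is in a face `F ∈ C` (`tri_mem_cover` for `C`,
`STri.toIs`), `tri_mem_or_int` (Select.lean; `F ⊆ B ⊆ P`) gives `x ∈ F ⊆ B` (impossible) or `x` in
the interior; `repr_tri`, `cr_of_int`; the cell is `(some a, some b, some c)`.
Otherwise `hull_sep` (Red.lean): `HE B u w`, `cr u w x < 0`; the cell is `(some w, some u, none)`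
(`cr_swap`). -/
theorem cell_ex (hG : GP P) (h : Coarse P B C T) {x : Pt} (hx : x ∈ P) (hxB : x ∉ B) :
    ∃ a b c, OT B C a b c ∧ Bdy P B a b c x := by
  by_cases hh : x ∈ convexHull ℝ (B : Set Pt)
  · obtain ⟨t, ht, hxt⟩ := tri_mem_cover h.tri.toIs hh
    rcases tri_mem_or_int hG ((h.tri.sub t ht).trans h.sub) (h.tri.card t ht)
      (h.tri.nondeg t ht) hx hxt with h1 | h1
    · exact absurd (h.tri.sub t ht h1) hxB
    · obtain ⟨a, b, c, rfl, hD⟩ := repr_tri (h.tri.card t ht) (h.tri.nondeg t ht)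
      rw [coe3] at h1
      obtain ⟨g1, g2, g3⟩ := cr_of_int hD h1
      exact ⟨some a, some b, some c, ⟨ht, hD⟩, hx, hxB, g1, g2, g3⟩
  · obtain ⟨u, w, hE, hc⟩ := hull_sep (hG.mono h.sub) h.card hh
    refine ⟨some w, some u, none, hE, hx, hxB, ?_, trivial, trivial⟩
    change 0 < cr w u x
    rw [cr_swap]
    linarith

/-- PROOF. `OT_cases` for both cells.
finite/finite: `x` is in the interior of both triangles (`mem_int_of_cr`, `coe3`), so they are equal
(`h.tri.disj`), and two positively oriented orderings of the same set are rotations of each other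
(odd permutations have negative orientation: `cr_swap`, `cr_rot`; or use `STri.unique`).
finite/cap: `x ∈ hull B` (`hull` of the triangle, `tri_hull_sub`), so `0 ≤ cr u w x`
(`cr_hull_nonneg`), but beyond the hull edge: `cr u w x < 0`.
cap/cap: `cap_disj` (Select.lean) with `z = x` gives `u = u'`, `w = w'`. -/
theorem cell_uniq (hG : GP P) (h : Coarse P B C T) {x : Pt} {a b c a' b' c' : Option Pt}
    (h1 : OT B C a b c) (h2 : Bdy P B a b c x) (h3 : OT B C a' b' c') (h4 : Bdy P B a' b' c' x) :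
    Rot a b c a' b' c' := by
  rcases OT_cases h1 with ⟨x1, y1, z1, rfl, rfl, rfl, ht, hD⟩ | ⟨u, w, hE, hr⟩
  · rcases OT_cases h3 with ⟨x2, y2, z2, rfl, rfl, rfl, ht', hD'⟩ | ⟨u', w', hE', hr'⟩
    · have hi := S2_fin h2
      have hi' := S2_fin h4
      have he : ({x1, y1, z1} : Finset Pt) = {x2, y2, z2} := by
        by_contra hne
        exact Set.disjoint_left.1 (h.tri.disj _ ht _ ht' hne) hi hi'
      obtain ⟨n1, n2, n3⟩ := ne_of_cr hD'.ne'
      have m1 : x2 ∈ ({x1, y1, z1} : Finset Pt) := by rw [he]; simp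
      have m2 : y2 ∈ ({x1, y1, z1} : Finset Pt) := by rw [he]; simp
      have m3 : z2 ∈ ({x1, y1, z1} : Finset Pt) := by rw [he]; simp
      simp only [Finset.mem_insert, Finset.mem_singleton] at m1 m2 m3
      have neg : ∀ a b c : Pt, 0 < cr a b c → 0 < cr a c b → False := by
        intro a b c g g'
        have : cr a c b = - cr a b c := by unfold cr; ring
        linarith
      rcases m1 with rfl | rfl | rfl <;> rcases m2 with rfl | rfl | rfl <;>
        rcases m3 with rfl | rfl | rfl <;>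
        first
          | exact absurd rfl n1
          | exact absurd rfl n2
          | exact absurd rfl n3
          | exact Or.inl ⟨rfl, rfl, rfl⟩
          | exact Or.inr (Or.inl ⟨rfl, rfl, rfl⟩)
          | exact Or.inr (Or.inr ⟨rfl, rfl, rfl⟩)
          | exact (neg _ _ _ hD hD').elim
          | exact (neg _ _ _ hD (by rw [cr_rot]; exact hD')).elim
          | exact (neg _ _ _ hD (by rw [cr_rot, cr_rot]; exact hD')).elim
    · exact (S2_fincap h ht h2 hE' (S2_cap h4 hr')).elim
  · rcases OT_cases h3 with ⟨x2, y2, z2, rfl, rfl, rfl, ht', hD'⟩ | ⟨u', w', hE', hr'⟩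
    · exact (S2_fincap h ht' h4 hE (S2_cap h2 hr)).elim
    · have hxP : x ∈ convexHull ℝ (P : Set Pt) := subset_convexHull ℝ _ (by exact_mod_cast h2.1)
      obtain ⟨rfl, rfl⟩ := cap_disj hG h.sub h.hv hE hE' hxP (S2_cap h2 hr) (S2_cap h4 hr')
      rcases hr with ⟨rfl, rfl, rfl⟩ | ⟨rfl, rfl, rfl⟩ | ⟨rfl, rfl, rfl⟩ <;>
        rcases hr' with ⟨rfl, rfl, rfl⟩ | ⟨rfl, rfl, rfl⟩ | ⟨rfl, rfl, rfl⟩ <;>
        first
          | exact Or.inl ⟨rfl, rfl, rfl⟩
          | exact Or.inr (Or.inl ⟨rfl, rfl, rfl⟩)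
          | exact Or.inr (Or.inr ⟨rfl, rfl, rfl⟩)

end MP91a79a

end
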