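import Pool.Agent.Lib.MP_91a79a_co.E.Def
import Pool.Agent.Lib.MP_91a79a_co.G.G1

/-! piece S3 (MP_91a79a_co): sides and edges of the sphere -/

noncomputable section

namespace MP91a79a

open Set Classical

variable {P B : Finset Pt} {C T : Finset (Finset Pt)}

/-- PROOF. `←`: `OT P T (some a) (some b) z`: `z` finite: `{a,b,z} ∈ T`, `a ≠ b` by `ne_of_cr`;
`z = none`: `HE P b a` is a side (`HE.side`). `→`: if some `p ∈ P` has `0 < cr a b p`, `STri.other`
(InsBase.lean) gives a triangle of `T` on the left of `a → b`; otherwise `HE P b a`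
(`cr b a p = - cr a b p ≥ 0`), take `z = none`. -/
theorem side_ed (hG : GP P) (hT : STri P T) {a b : Pt} :
    Side T a b ↔ Ed (OT P T) (some a) (some b) := by
  constructor
  · intro hab
    obtain ⟨haP, hbP⟩ := Side.mem hT hab
    by_cases hex : ∃ p ∈ P, 0 < cr a b p
    · obtain ⟨p, hp, hp0⟩ := hex
      obtain ⟨c, hc, hc'⟩ := hT.other hG hab hp hp0.ne'
      exact ⟨some c, hc, (pos_iff_pos_of_mul_pos hc').2 hp0⟩
    · push Not at hex
      refine ⟨none, hbP, haP, hab.1.symm, fun w hw => ?_⟩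
      have := hex w hw
      rw [cr_swap]
      linarith
  · rintro ⟨z, hz⟩
    rcases z with _ | z
    · have h : HE P b a := hz
      exact (h.side hG hT).symm
    · have h : {a, b, z} ∈ T ∧ 0 < cr a b z := hz
      exact ⟨(ne_of_cr h.2.ne').1, _, h.1, by simp, by simp⟩

/-- edges at infinity.
PROOF. `→`: `OT P T none (some x) z`: `z = some y` and `HE P y x` (the other cases are `False`), so
`HV P x` by `HE.hv_right`, `x ∈ P`. `←`: `HV.pred` (HullE.lean) at `x` gives `HE P y x`. -/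
theorem ed_inf (hG : GP P) (hT : STri P T) (h3 : 3 ≤ P.card) {x : Pt} :
    Ed (OT P T) none (some x) ↔ x ∈ P ∧ HV P x := by
  constructor
  · rintro ⟨z, hz⟩
    rcases z with _ | z
    · exact False.elim hz
    · have h : HE P z x := hz
      exact ⟨h.2.1, h.hv_right⟩
  · rintro ⟨hx, hv⟩
    obtain ⟨a, ha⟩ := hv.pred hG hx (by omega)
    exact ⟨some a, ha⟩

theorem ed_inf' (hG : GP P) (hT : STri P T) (h3 : 3 ≤ P.card) {x : Pt} :
    Ed (OT P T) (some x) none ↔ x ∈ P ∧ HV P x := by
  constructor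
  · rintro ⟨z, hz⟩
    rw [← ed_inf hG hT h3]
    exact OT_opp hG hT h3 _ _ _ hz
  · intro h
    rw [← ed_inf hG hT h3] at h
    obtain ⟨z, hz⟩ := h
    exact OT_opp hG hT h3 _ _ _ hz

/-- PROOF. Cases on `a`, `b`: both finite: `side_ed` (for `B`, `C` and for `P`, `T`;
`h.big.strict hG`) and `h.ref`; one infinite: `ed_inf`, `ed_inf'`: `HV B x → HV P x` is `h.hv`,
`x ∈ P` by `h.sub`; `3 ≤ P.card` from `h.card` and `Finset.card_le_card h.sub`; both infinite:
`OT` is `False`. -/
theorem ed_ref (hG : GP P) (h : Coarse P B C T) {a b : Option Pt} (hab : Ed (OT B C) a b) :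
    Ed (OT P T) a b := by
  have hGB : GP B := hG.mono h.sub
  have hT : STri P T := h.big.strict hG
  have h3 : 3 ≤ P.card := h.card.trans (Finset.card_le_card h.sub)
  rcases a with _ | a <;> rcases b with _ | b
  · obtain ⟨z, hz⟩ := hab
    rcases z with _ | z <;> exact False.elim hz
  · have h1 := (ed_inf hGB h.tri h.card).1 hab
    exact (ed_inf hG hT h3).2 ⟨h.sub h1.1, h.hv _ h1.1 h1.2⟩
  · have h1 := (ed_inf' hGB h.tri h.card).1 hab
    exact (ed_inf' hG hT h3).2 ⟨h.sub h1.1, h.hv _ h1.1 h1.2⟩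
  · exact (side_ed hG hT).1 (h.ref _ _ ((side_ed hGB h.tri).2 hab))

end MP91a79a

end
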