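import Pool.Agent.Lib.MP_91a79a_co.E.S1
import Pool.Agent.Lib.MP_91a79a_co.E.S2
import Pool.Agent.Lib.MP_91a79a_co.E.S3

/-! piece L (MP_91a79a_co): the triangles of `T` seen from the cells -/

noncomputable section

namespace MP91a79a

open Set Classical

variable {P B : Finset Pt} {C T : Finset (Finset Pt)}

/-- a hub (or infinity) in a closed cell is a corner -/
theorem Cc.corner {a b c v : Option Pt} (h : Cc P B a b c v) (hv : v ∈ Wp B) :
    v = a ∨ v = b ∨ v = c := by
  rcases h with h | h | h | ⟨p, rfl, h'⟩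
  · exact Or.inl h
  · exact Or.inr (Or.inl h)
  · exact Or.inr (Or.inr h)
  · exact absurd (mem_Wp_some.1 hv) h'.2.1

/-- a body point in a closed cell is in the body -/
theorem Cc.body {a b c : Option Pt} {x : Pt} (hc : OT B C a b c) (hC : STri B C)
    (h : Cc P B a b c (some x)) (hx : x ∉ B) : Bdy P B a b c x := by
  have hm : ∀ v, (v = a ∨ v = b ∨ v = c) → v ∈ Wp B := by
    intro v hv
    rcases hv with rfl | rfl | rfl
    · exact OT_mem hC _ _ _ hc
    · exact OT_mem hC _ _ _ (OT_rot _ _ _ hc)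
    · exact OT_mem hC _ _ _ (OT_rot _ _ _ (OT_rot _ _ _ hc))
  rcases h with h | h | h | ⟨p, hp, h'⟩
  · exact absurd (mem_Wp_some.1 (hm _ (Or.inl h))) hx
  · exact absurd (mem_Wp_some.1 (hm _ (Or.inr (Or.inl h)))) hx
  · exact absurd (mem_Wp_some.1 (hm _ (Or.inr (Or.inr h)))) hx
  · have : x = p := by simpa using hp
    exact this ▸ h'

theorem OT_of_rot' {a b c a' b' c' : Option Pt} (hr : Rot a b c a' b' c') (h : OT P T a b c) :
    OT P T a' b' c' := by
  rcases hr with ⟨rfl, rfl, rfl⟩ | ⟨rfl, rfl, rfl⟩ | ⟨rfl, rfl, rfl⟩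
  · exact h
  · exact OT_rot _ _ _ h
  · exact OT_rot _ _ _ (OT_rot _ _ _ h)

theorem Cc_of_rot {a b c a' b' c' v : Option Pt} (hr : Rot a b c a' b' c')
    (h : Cc P B a b c v) : Cc P B a' b' c' v := by
  rcases hr with ⟨rfl, rfl, rfl⟩ | ⟨rfl, rfl, rfl⟩ | ⟨rfl, rfl, rfl⟩
  · exact h
  · exact h.rot
  · exact h.rot.rot

/-- two different corners of a cell, up to rotation -/
theorem cell_two' {a b c d d' : Option Pt} (hd : d = a ∨ d = b ∨ d = c)
    (hd' : d' = a ∨ d' = b ∨ d' = c) (hne : d ≠ d') :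
    (∃ e, Rot a b c d d' e) ∨ ∃ e, Rot a b c d' d e := by
  rcases hd with rfl | rfl | rfl <;> rcases hd' with rfl | rfl | rfl <;>
    first
    | exact absurd rfl hne
    | exact Or.inl ⟨_, Or.inl ⟨rfl, rfl, rfl⟩⟩
    | exact Or.inl ⟨_, Or.inr (Or.inl ⟨rfl, rfl, rfl⟩)⟩
    | exact Or.inl ⟨_, Or.inr (Or.inr ⟨rfl, rfl, rfl⟩)⟩
    | exact Or.inr ⟨_, Or.inl ⟨rfl, rfl, rfl⟩⟩
    | exact Or.inr ⟨_, Or.inr (Or.inl ⟨rfl, rfl, rfl⟩)⟩
    | exact Or.inr ⟨_, Or.inr (Or.inr ⟨rfl, rfl, rfl⟩)⟩

/-- a hull edge of `P` is not the reverse of a hull edge of `B` -/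
theorem HE_anti (hG : GP P) (h : Coarse P B C T) {u w : Pt} (h1 : HE P u w) (h2 : HE B w u) :
    False := by
  obtain ⟨q, hqB, hq1, hq2⟩ : ∃ q ∈ B, q ≠ u ∧ q ≠ w := by
    have h3 : ({u, w} : Finset Pt).card < B.card := by
      have h2 : ({u, w} : Finset Pt).card ≤ 2 := Finset.card_le_two
      have := h.card
      omega
    obtain ⟨q, hq, hqn⟩ := Finset.exists_mem_notMem_of_card_lt_card h3
    simp only [Finset.mem_insert, Finset.mem_singleton, not_or] at hqn
    exact ⟨q, hq, hqn.1, hqn.2⟩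
  have h4 := h2.pos (hG.mono h.sub) hqB hq2 hq1
  have h5 := h1.2.2.2 q (h.sub hqB)
  rw [cr_swap] at h4
  linarith

/-- LOC. PROOF. `sub_cell` gives a closed cell `a' b' c'` which contains `some x`, `y`, `z`;
`Cc.body`: `Bdy P B a' b' c' x`; `cell_uniq`: `Rot a b c a' b' c'`; transport by `Cc.rot`. -/
theorem loc (hG : GP P) (h : Coarse P B C T) {x : Pt} {a b c y z : Option Pt}
    (hc : OT B C a b c) (hx : Bdy P B a b c x) (ht : OT P T (some x) y z) :
    Cc P B a b c y ∧ Cc P B a b c z := by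
  obtain ⟨a', b', c', hc', h1, h2, h3⟩ := sub_cell hG h ht
  have hb : Bdy P B a' b' c' x := h1.body hc' h.tri hx.2.1
  rcases cell_uniq hG h hc' hb hc hx with ⟨rfl, rfl, rfl⟩ | ⟨rfl, rfl, rfl⟩ | ⟨rfl, rfl, rfl⟩
  · exact ⟨h2, h3⟩
  · exact ⟨h2.rot, h3.rot⟩
  · exact ⟨h2.rot.rot, h3.rot.rot⟩

/-- PROOF. finite cell: `OT P T a b c` gives `{a,b,c} ∈ T`, but `x` is in its interior
(`mem_int_of_cr`) and not a vertex (`x ∉ B`, vertices are in `B` by `h.tri.sub`); `strict` of
`h.big.strict hG` (interior ⊆ hull: `interior_subset`) says that `x` is a vertex.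
cap (three rotations, `OT_cases`): `OT P T` of the same triple says `HE P u w`, so
`0 ≤ cr u w x`, but `Cel` says `0 < cr w u x`. -/
theorem notfull (hG : GP P) (h : Coarse P B C T) {x : Pt} {a b c : Option Pt}
    (hc : OT B C a b c) (hx : Bdy P B a b c x) : ¬ OT P T a b c := by
  intro ht
  rcases OT_cases hc with ⟨a', b', c', rfl, rfl, rfl, hF, h0⟩ | ⟨u, w, hHE, hh⟩
  · have hT := h.big.strict hG
    have hmem : x ∈ ({a', b', c'} : Finset Pt) := hT.strict _ ht.1 x hx.1 (by
      rw [coe3]; exact interior_subset (mem_int_of_cr hx.2.2.1 hx.2.2.2.1 hx.2.2.2.2))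
    exact hx.2.1 (h.tri.sub _ hF hmem)
  · rcases hh with ⟨rfl, rfl, rfl⟩ | ⟨rfl, rfl, rfl⟩ | ⟨rfl, rfl, rfl⟩
    · have h1 : HE P u w := ht
      have h2 := h1.2.2.2 x hx.1
      have h3 : 0 < cr w u x := hx.2.2.2.1
      rw [cr_swap] at h3
      linarith
    · have h1 : HE P u w := ht
      have h2 := h1.2.2.2 x hx.1
      have h3 : 0 < cr w u x := hx.2.2.1
      rw [cr_swap] at h3
      linarith
    · have h1 : HE P u w := ht
      have h2 := h1.2.2.2 x hx.1
      have h3 : 0 < cr w u x := hx.2.2.2.2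
      rw [cr_swap] at h3
      linarith

/-- the triangle of `T` on the left of the side `a → b` of the cell `abc`.
PROOF. `a, b ∈ Wp B` (`OT_mem h.tri`, `OT_rot`).  `sub_cell` gives a closed cell `a' b' c'` with
`a`, `b`, `z` in it; by `Cc.corner` `a` and `b` are corners, `a ≠ b` (`OT_ne`). After rotation
(`OT_rot`, `Cc.rot`) either `a' = a ∧ b' = b` or `a' = b ∧ b' = a` (6 cases).
First case: `c' = c` (`OT_fn (hG.mono h.sub) h.tri h.card`), and `z` in the closed cell,
`z ≠ a`, `z ≠ b` (`OT_ne` and rotations): done.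
Second case: `OT B C b a c'`.  If `z` is a corner then `z = c'`: `OT P T a b z` and `OT B C b a z`:
all finite: `0 < cr a b z` and `0 < cr b a z`, `cr_swap`; one of them is `none`: `HE P u v` and
`HE B v u` for two hubs; take a third point `p ∈ B` (`h.card`, e.g. by
`Finset.exists_mem_notMem_of_card_lt_card` with `{u,v}`), `HE.pos` twice, `cr_swap`.
If `z = some p` with `Bdy P B b a c' p`: if `a`, `b` are finite then `0 < cr b a p` (`Cel`) and
`0 < cr a b p`; if `a = none`, `b = some y`: `OT P T none (some y) (some p)` is `HE P p y`;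
`OT B C (some y) none c'`: `c' = some x'`, `HE B y x'`, and `Cel (some y) none (some x') p` says
`0 < cr x' y p`; but `HE P p y` gives `0 ≤ cr p y x' = cr x' p y = - cr x' y p`: contradiction.
Same for `b = none`. -/
theorem locside (hG : GP P) (h : Coarse P B C T) {a b c z : Option Pt}
    (hc : OT B C a b c) (ht : OT P T a b z) : z = c ∨ ∃ p, z = some p ∧ Bdy P B a b c p := by
  obtain ⟨a', b', c', hc', h1, h2, h3⟩ := sub_cell hG h ht
  have haW : a ∈ Wp B := OT_mem h.tri _ _ _ hc
  have hbW : b ∈ Wp B := OT_mem h.tri _ _ _ (OT_rot _ _ _ hc)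
  have hab : a ≠ b := OT_ne _ _ _ ht
  have hza : z ≠ a := OT_ne _ _ _ (OT_rot _ _ _ (OT_rot _ _ _ ht))
  have hzb : z ≠ b := (OT_ne _ _ _ (OT_rot _ _ _ ht)).symm
  rcases cell_two' (h1.corner haW) (h2.corner hbW) hab with ⟨e, hr⟩ | ⟨e, hr⟩
  · have he : OT B C a b e := OT_of_rot' hr hc'
    have hec : e = c := OT_fn (hG.mono h.sub) h.tri h.card _ _ _ _ he hc
    subst hec
    rcases Cc_of_rot hr h3 with h4 | h4 | h4 | h4
    · exact absurd h4 hza
    · exact absurd h4 hzb
    · exact Or.inl h4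
    · exact Or.inr h4
  · exfalso
    have he : OT B C b a e := OT_of_rot' hr hc'
    rcases Cc_of_rot hr h3 with h4 | h4 | h4 | ⟨p, rfl, hp⟩
    · exact hzb h4
    · exact hza h4
    · subst h4
      rcases OT_cases ht with ⟨x1, y1, z1, rfl, rfl, rfl, _, h0⟩ | ⟨u, w, hHE, hh⟩
      · have h5 : 0 < cr y1 x1 z1 := he.2
        rw [cr_swap] at h5
        linarith
      · have h6 : HE B w u := by
          rcases hh with ⟨rfl, rfl, rfl⟩ | ⟨rfl, rfl, rfl⟩ | ⟨rfl, rfl, rfl⟩
          · exact he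
          · exact he
          · exact he
        exact HE_anti hG h hHE h6
    · rcases OT_cases ht with ⟨x1, y1, z1, rfl, rfl, h6, _, h0⟩ | ⟨u, w, hHE, hh⟩
      · have hpz : p = z1 := by simpa using h6
        subst hpz
        have h5 : 0 < cr y1 x1 p := hp.2.2.1
        rw [cr_swap] at h5
        linarith
      · rcases hh with ⟨rfl, rfl, h7⟩ | ⟨_, _, h7⟩ | ⟨rfl, rfl, h7⟩
        · have hpu : p = u := by simpa using h7
          subst hpu
          rcases e with _ | x'
          · exact he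
          · have h8 : HE B w x' := he
            have h9 : 0 < cr x' w p := hp.2.2.2.2
            have h10 := hHE.2.2.2 x' (h.sub h8.2.1)
            rw [cr_rot, cr_swap] at h10
            linarith
        · cases h7
        · have hpw : p = w := by simpa using h7
          subst hpw
          rcases e with _ | x'
          · exact he
          · have h8 : HE B x' u := he
            have h9 : 0 < cr u x' p := hp.2.2.2.1
            have h10 := hHE.2.2.2 x' (h.sub h8.1)
            rw [cr_rot, cr_rot, cr_swap] at h10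
            linarith

/-- PROOF. `ed_ref` gives `OT P T a b z`; `locside`, `notfull`. -/
theorem apex (hG : GP P) (h : Coarse P B C T) {x : Pt} {a b c : Option Pt}
    (hc : OT B C a b c) (hx : Bdy P B a b c x) :
    ∃ z, Bdy P B a b c z ∧ OT P T a b (some z) := by
  obtain ⟨z, hz⟩ := ed_ref hG h ⟨c, hc⟩
  rcases locside hG h hc hz with rfl | ⟨p, rfl, hp⟩
  · exact absurd hz (notfull hG h hc hx)
  · exact ⟨p, hp, hz⟩

/-- going around the corner `a` of a cell `abc` one meets first `b`, then body points, then `c`.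
PROOF. `OT P T (some x) a w` (rotation), `loc`: `w` is in the closed cell. `w ≠ a` (`OT_ne`).  If
`w = c`: `OT P T a c (some x)`: `a`, `c` finite: `0 < cr a c x` but `Cel` says `0 < cr c a x`;
`a = none`, `c = some y`: `HE P x y` and `OT B C none b (some y)` is `HE B y b'`, `b = some b'`,
`Cel`: `0 < cr b' y x`, but `HE P x y` gives `0 ≤ cr x y b' = cr b' x y = - cr b' y x`; `c = none`,
`a = some y`: `OT P T (some y) none (some x)` is `HE P y x`, `OT B C (some y) b none` is
`HE B b' y`, `Cel`: `0 < cr y b' x`, but `HE P y x` gives `0 ≤ cr y x b' = - cr y b' x`. -/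
theorem fan_step (hG : GP P) (h : Coarse P B C T) {x : Pt} {a b c w : Option Pt}
    (hc : OT B C a b c) (hx : Bdy P B a b c x) (ht : OT P T a w (some x)) :
    w = b ∨ ∃ p, w = some p ∧ Bdy P B a b c p := by
  have ht2 : OT P T (some x) a w := OT_rot _ _ _ (OT_rot _ _ _ ht)
  rcases (loc hG h hc hx ht2).2 with rfl | rfl | rfl | ⟨p, rfl, hp⟩
  · exact absurd rfl (OT_ne _ _ _ ht)
  · exact Or.inl rfl
  · exfalso
    rcases OT_cases ht with ⟨x1, y1, z1, rfl, rfl, h6, _, h0⟩ | ⟨u, w1, hHE, hh⟩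
    · have hpz : x = z1 := by simpa using h6
      subst hpz
      have h5 : 0 < cr y1 x1 x := hx.2.2.2.2
      rw [cr_swap] at h5
      linarith
    · rcases hh with ⟨rfl, rfl, h7⟩ | ⟨_, _, h7⟩ | ⟨rfl, rfl, h7⟩
      · have hpu : x = u := by simpa using h7
        subst hpu
        rcases b with _ | b1
        · exact hc
        · have h8 : HE B w1 b1 := hc
          have h9 : 0 < cr b1 w1 x := hx.2.2.2.1
          have h10 := hHE.2.2.2 b1 (h.sub h8.2.1)
          rw [cr_rot, cr_swap] at h10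
          linarith
      · cases h7
      · have hpw : x = w1 := by simpa using h7
        subst hpw
        rcases b with _ | b1
        · exact hc
        · have h8 : HE B b1 u := hc
          have h9 : 0 < cr u b1 x := hx.2.2.1
          have h10 := hHE.2.2.2 b1 (h.sub h8.1)
          rw [cr_rot, cr_rot, cr_swap] at h10
          linarith
  · exact Or.inr ⟨p, rfl, hp⟩

/-- PROOF. `Ed (OT P T) a b` gives `z`; `sub_cell`: a closed cell with `a`, `b`, corners by
`Cc.corner`, `a ≠ b`; so `a b` or `b a` is a side of the cell, `OT_opp` for `B`, `C`, and `OT_rot`. -/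
theorem ed_hub (hG : GP P) (h : Coarse P B C T) {a b : Option Pt} (ha : a ∈ Wp B)
    (hb : b ∈ Wp B) (hab : Ed (OT P T) a b) : Ed (OT B C) a b := by
  obtain ⟨z, hz⟩ := hab
  obtain ⟨a', b', c', hc', h1, h2, -⟩ := sub_cell hG h hz
  rcases cell_two' (h1.corner ha) (h2.corner hb) (OT_ne _ _ _ hz) with ⟨e, hr⟩ | ⟨e, hr⟩
  · exact ⟨e, OT_of_rot' hr hc'⟩
  · exact OT_opp (hG.mono h.sub) h.tri h.card _ _ _ (OT_of_rot' hr hc')

end MP91a79a

end
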