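import Pool.Agent.Lib.MP_91a79a_co.E.Def

/-! piece N (MP_91a79a_co): segments in closed cells do not cross -/

noncomputable section

namespace MP91a79a

open Set Classical

variable {P B : Finset Pt} {C T : Finset (Finset Pt)}

private theorem n_rot {x y z x' y' z' : Pt} (he : ({x, y, z} : Finset Pt) = {x', y', z'})
    (h : 0 < cr x y z) (h' : 0 < cr x' y' z') :
    (x' = x ∧ y' = y ∧ z' = z) ∨ (x' = y ∧ y' = z ∧ z' = x) ∨ (x' = z ∧ y' = x ∧ z' = y) := by
  have hx : x' ∈ ({x, y, z} : Finset Pt) := by rw [he]; simp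
  have hy : y' ∈ ({x, y, z} : Finset Pt) := by rw [he]; simp
  have hz : z' ∈ ({x, y, z} : Finset Pt) := by rw [he]; simp
  simp only [Finset.mem_insert, Finset.mem_singleton] at hx hy hz
  have d := ne_of_cr h'.ne'
  clear he
  rcases hx with hx | hx | hx <;> rcases hy with hy | hy | hy <;> rcases hz with hz | hz | hz
  case inl.inl.inl => exact absurd (hx.trans hy.symm) d.1
  case inl.inl.inr.inl => exact absurd (hx.trans hy.symm) d.1
  case inl.inl.inr.inr => exact absurd (hx.trans hy.symm) d.1
  case inl.inr.inl.inl => exact absurd (hx.trans hz.symm) d.2.1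
  case inl.inr.inl.inr.inl => exact absurd (hy.trans hz.symm) d.2.2
  case inl.inr.inl.inr.inr => exact Or.inl ⟨hx, hy, hz⟩
  case inl.inr.inr.inl => exact absurd (hx.trans hz.symm) d.2.1
  case inl.inr.inr.inr.inl =>
    exfalso
    rw [hx, hy, hz] at h'
    unfold cr at h h'
    linarith
  case inl.inr.inr.inr.inr => exact absurd (hy.trans hz.symm) d.2.2
  case inr.inl.inl.inl => exact absurd (hy.trans hz.symm) d.2.2
  case inr.inl.inl.inr.inl => exact absurd (hx.trans hz.symm) d.2.1
  case inr.inl.inl.inr.inr =>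
    exfalso
    rw [hx, hy, hz] at h'
    unfold cr at h h'
    linarith
  case inr.inl.inr.inl.inl => exact absurd (hx.trans hy.symm) d.1
  case inr.inl.inr.inl.inr.inl => exact absurd (hx.trans hy.symm) d.1
  case inr.inl.inr.inl.inr.inr => exact absurd (hx.trans hy.symm) d.1
  case inr.inl.inr.inr.inl => exact Or.inr (Or.inl ⟨hx, hy, hz⟩)
  case inr.inl.inr.inr.inr.inl => exact absurd (hx.trans hz.symm) d.2.1
  case inr.inl.inr.inr.inr.inr => exact absurd (hy.trans hz.symm) d.2.2
  case inr.inr.inl.inl => exact absurd (hy.trans hz.symm) d.2.2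
  case inr.inr.inl.inr.inl => exact Or.inr (Or.inr ⟨hx, hy, hz⟩)
  case inr.inr.inl.inr.inr => exact absurd (hx.trans hz.symm) d.2.1
  case inr.inr.inr.inl.inl =>
    exfalso
    rw [hx, hy, hz] at h'
    unfold cr at h h'
    linarith
  case inr.inr.inr.inl.inr.inl => exact absurd (hy.trans hz.symm) d.2.2
  case inr.inr.inr.inl.inr.inr => exact absurd (hx.trans hz.symm) d.2.1
  case inr.inr.inr.inr.inl => exact absurd (hx.trans hy.symm) d.1
  case inr.inr.inr.inr.inr.inl => exact absurd (hx.trans hy.symm) d.1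
  case inr.inr.inr.inr.inr.inr => exact absurd (hx.trans hy.symm) d.1

/-- the values on the closed cell -/
private theorem n_key {a b c : Option Pt} (hc : OT B C a b c) {x y : Pt} (hx : some x = a)
    (hy : some y = b) {p : Pt} (hp : Cc P B a b c (some p)) : 0 ≤ cr x y p := by
  subst hx; subst hy
  rcases hp with h | h | h | ⟨q, h, hq⟩
  · have : p = x := by simpa using h
    rw [this, cr_self]
  · have : p = y := by simpa using h
    rw [this, cr_self']
  · rcases c with _ | z
    · exact absurd h (by simp)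
    · have : p = z := by simpa using h
      rw [this]
      exact hc.2.le
  · have : p = q := by simpa using h
    rw [this]
    exact le_of_lt hq.2.2.1

private theorem n_corner_mem (h : Coarse P B C T) {a b c : Option Pt} (hc : OT B C a b c) {x : Pt}
    (hx : some x = a ∨ some x = b ∨ some x = c) : x ∈ B := by
  rcases hx with hx | hx | hx
  · exact mem_Wp_some.1 (hx ▸ OT_mem h.tri _ _ _ hc)
  · exact mem_Wp_some.1 (hx ▸ OT_mem h.tri _ _ _ (OT_rot _ _ _ hc))
  · exact mem_Wp_some.1 (hx ▸ OT_mem h.tri _ _ _ (OT_rot _ _ _ (OT_rot _ _ _ hc)))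

private theorem n_cc_mem (h : Coarse P B C T) {a b c : Option Pt} (hc : OT B C a b c) {x : Pt}
    (hx : Cc P B a b c (some x)) : x ∈ P := by
  rcases hx with hx | hx | hx | ⟨p, hp, hb⟩
  · exact h.sub (n_corner_mem h hc (Or.inl hx))
  · exact h.sub (n_corner_mem h hc (Or.inr (Or.inl hx)))
  · exact h.sub (n_corner_mem h hc (Or.inr (Or.inr hx)))
  · have : x = p := by simpa using hp
    rw [this]
    exact hb.1

private theorem n_corner {a b c : Option Pt} {x : Pt} (hx : Cc P B a b c (some x))
    (hn : ¬ Bdy P B a b c x) : some x = a ∨ some x = b ∨ some x = c := by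
  rcases hx with hx | hx | hx | ⟨p, hp, hb⟩
  · exact Or.inl hx
  · exact Or.inr (Or.inl hx)
  · exact Or.inr (Or.inr hx)
  · have : x = p := by simpa using hp
    rw [this] at hn
    exact absurd hb hn

private theorem n_side (hG : GP P) (h : Coarse P B C T) {a b c : Option Pt} (hc : OT B C a b c)
    {x y : Pt} (hx : some x = a ∨ some x = b ∨ some x = c)
    (hy : some y = a ∨ some y = b ∨ some y = c) (hxy : x ≠ y) : Side C x y := by
  rcases OT_cases hc with ⟨p, q, r, rfl, rfl, rfl, ht, h0⟩ | ⟨u, w, huw, hcap⟩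
  · refine ⟨hxy, _, ht, ?_, ?_⟩
    · simpa using hx
    · simpa using hy
  · have hs := huw.side (hG.mono h.sub) h.tri
    have hx' : x = u ∨ x = w := by
      rcases hcap with ⟨rfl, rfl, rfl⟩ | ⟨rfl, rfl, rfl⟩ | ⟨rfl, rfl, rfl⟩ <;>
        simp only [reduceCtorEq, Option.some.injEq, false_or, or_false] at hx <;> tauto
    have hy' : y = u ∨ y = w := by
      rcases hcap with ⟨rfl, rfl, rfl⟩ | ⟨rfl, rfl, rfl⟩ | ⟨rfl, rfl, rfl⟩ <;>
        simp only [reduceCtorEq, Option.some.injEq, false_or, or_false] at hy <;> tauto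
    rcases hx' with rfl | rfl <;> rcases hy' with rfl | rfl
    · exact absurd rfl hxy
    · exact hs
    · exact hs.symm
    · exact absurd rfl hxy

private theorem n_lfo {a b c : Option Pt} (hc : OT B C a b c) {x y : Pt} {s t : ℝ} (hs : 0 < s)
    (ht : 0 < t) (hst : s + t = 1) (hx : Cc P B a b c (some x)) (hy : Cc P B a b c (some y))
    (h : lfo a b x ∨ lfo a b y) : lfo a b (s • x + t • y) := by
  rcases a with _ | a
  · exact True.intro
  rcases b with _ | b
  · exact True.intro
  have k1 := n_key hc rfl rfl hx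
  have k2 := n_key hc rfl rfl hy
  change 0 < cr a b (s • x + t • y)
  rw [cr_comb2 _ _ _ _ _ _ hst]
  rcases h with h | h
  · have h' : 0 < cr a b x := h
    nlinarith [mul_pos hs h', mul_nonneg ht.le k2]
  · have h' : 0 < cr a b y := h
    nlinarith [mul_pos ht h', mul_nonneg hs.le k1]

private theorem n_cel {a b c : Option Pt} (hc : OT B C a b c) {x y : Pt} {s t : ℝ} (hs : 0 < s)
    (ht : 0 < t) (hst : s + t = 1) (hx : Cc P B a b c (some x)) (hy : Cc P B a b c (some y))
    (h : Bdy P B a b c x ∨ Bdy P B a b c y) : Cel a b c (s • x + t • y) := by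
  refine ⟨n_lfo hc hs ht hst hx hy (h.imp (fun h => h.2.2.1) (fun h => h.2.2.1)),
    n_lfo (OT_rot _ _ _ hc) hs ht hst hx.rot hy.rot
      (h.imp (fun h => h.2.2.2.1) (fun h => h.2.2.2.1)),
    n_lfo (OT_rot _ _ _ (OT_rot _ _ _ hc)) hs ht hst hx.rot.rot hy.rot.rot
      (h.imp (fun h => h.2.2.2.2) (fun h => h.2.2.2.2))⟩

/-- a point of the segment between two corners is not in an open cell -/
private theorem n_mid (hG : GP P) (h : Coarse P B C T) {a b c a' b' c' : Option Pt}
    (hc : OT B C a b c) (hc' : OT B C a' b' c') {x y : Pt} {s t : ℝ} (hs : 0 < s)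
    (ht : 0 < t) (hst : s + t = 1) (hx : some x = a ∨ some x = b ∨ some x = c)
    (hy : some y = a ∨ some y = b ∨ some y = c) (hxy : x ≠ y)
    (hcel : Cel a' b' c' (s • x + t • y)) : False := by
  have hside := n_side hG h hc hx hy hxy
  have hxB := n_corner_mem h hc hx
  have hyB := n_corner_mem h hc hy
  have hseg : s • x + t • y ∈ segment ℝ x y := ⟨s, t, hs.le, ht.le, hst, rfl⟩
  have hmB : s • x + t • y ∈ convexHull ℝ (B : Set Pt) :=
    (convex_convexHull ℝ _).segment_subset (subset_convexHull _ _ hxB)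
      (subset_convexHull _ _ hyB) hseg
  rcases OT_cases hc' with ⟨p, q, r, rfl, rfl, rfl, ht', h0⟩ | ⟨u, w, huw, hcap⟩
  · have hint := mem_int_of_cr (a := p) (b := q) (c := r) hcel.1 hcel.2.1 hcel.2.2
    rw [← coe3] at hint
    exact side_disj_int h.tri.toIs hside ht' hseg hint
  · have h1 := cr_hull_nonneg huw.2.2.2 hmB
    have h2 : 0 < cr w u (s • x + t • y) := by
      rcases hcap with ⟨rfl, rfl, rfl⟩ | ⟨rfl, rfl, rfl⟩ | ⟨rfl, rfl, rfl⟩
      · exact hcel.2.1
      · exact hcel.1
      · exact hcel.2.2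
    rw [cr_swap] at h2
    linarith

/-- cells are disjoint.
PROOF. `OT_cases` for both cells. finite/finite: `m` is in the interior of both triangles
(`mem_int_of_cr`, `coe3`), so they are equal (`h.tri.disj`), and two positively oriented orderings
of the same set are rotations of each other (`cr_swap`, `cr_rot`).  finite/cap: `m ∈ hull B`
(`tri_hull_sub`), so `0 ≤ cr u w m` (`cr_hull_nonneg`), but `Cel` says `0 < cr w u m`.
cap/cap: `cap_disj` (Select.lean). -/
theorem cel_uniq (hG : GP P) (h : Coarse P B C T) {m : Pt} (hm : m ∈ convexHull ℝ (P : Set Pt))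
    {a b c a' b' c' : Option Pt} (h1 : OT B C a b c) (h2 : Cel a b c m) (h3 : OT B C a' b' c')
    (h4 : Cel a' b' c' m) : Rot a b c a' b' c' := by
  have hcapm : ∀ {a b c : Option Pt} {u w : Pt}, Cel a b c m →
      ((a = none ∧ b = some w ∧ c = some u) ∨
      (a = some w ∧ b = some u ∧ c = none) ∨ (a = some u ∧ b = none ∧ c = some w)) →
      cr u w m < 0 := by
    intro a b c u w hcel hcap
    have h2 : 0 < cr w u m := by
      rcases hcap with ⟨rfl, rfl, rfl⟩ | ⟨rfl, rfl, rfl⟩ | ⟨rfl, rfl, rfl⟩
      · exact hcel.2.1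
      · exact hcel.1
      · exact hcel.2.2
    rw [cr_swap] at h2
    linarith
  have hfin : ∀ {x y z : Pt}, ({x, y, z} : Finset Pt) ∈ C →
      Cel (some x) (some y) (some z) m → m ∈ convexHull ℝ (B : Set Pt) := by
    intro x y z ht hcel
    have hint := interior_subset (mem_int_of_cr (a := x) (b := y) (c := z) hcel.1 hcel.2.1 hcel.2.2)
    rw [← coe3] at hint
    exact convexHull_mono (Finset.coe_subset.2 (h.tri.sub _ ht)) hint
  rcases OT_cases h1 with ⟨x, y, z, rfl, rfl, rfl, ht, h0⟩ | ⟨u, w, huw, hcap⟩ <;>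
    rcases OT_cases h3 with ⟨x', y', z', rfl, rfl, rfl, ht', h0'⟩ | ⟨u', w', huw', hcap'⟩
  · have hint := mem_int_of_cr (a := x) (b := y) (c := z) h2.1 h2.2.1 h2.2.2
    have hint' := mem_int_of_cr (a := x') (b := y') (c := z') h4.1 h4.2.1 h4.2.2
    have he : ({x, y, z} : Finset Pt) = {x', y', z'} := by
      by_contra hne
      have hd := h.tri.disj _ ht _ ht' hne
      rw [coe3, coe3] at hd
      exact Set.disjoint_left.1 hd hint hint'
    rcases n_rot he h0 h0' with ⟨rfl, rfl, rfl⟩ | ⟨rfl, rfl, rfl⟩ | ⟨rfl, rfl, rfl⟩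
    · exact Or.inl ⟨rfl, rfl, rfl⟩
    · exact Or.inr (Or.inl ⟨rfl, rfl, rfl⟩)
    · exact Or.inr (Or.inr ⟨rfl, rfl, rfl⟩)
  · have k1 := cr_hull_nonneg huw'.2.2.2 (hfin ht h2)
    have k2 := hcapm h4 hcap'
    linarith
  · have k1 := cr_hull_nonneg huw.2.2.2 (hfin ht' h4)
    have k2 := hcapm h2 hcap
    linarith
  · obtain ⟨rfl, rfl⟩ := cap_disj hG h.sub h.hv huw huw' hm (hcapm h2 hcap) (hcapm h4 hcap')
    rcases hcap with ⟨rfl, rfl, rfl⟩ | ⟨rfl, rfl, rfl⟩ | ⟨rfl, rfl, rfl⟩ <;>
      rcases hcap' with ⟨rfl, rfl, rfl⟩ | ⟨rfl, rfl, rfl⟩ | ⟨rfl, rfl, rfl⟩ <;>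
      unfold Rot <;> simp

/-- a segment between two corners and a segment in the same closed cell.
PROOF. `x ≠ y` (`Cross.distinct`), so up to rotation (`Cc.rot`, `OT_rot`) `(x, y)` is `(a, b)` or
`(b, a)` (6 cases).  Every point `p` of the closed cell has `0 ≤ cr a b p`: corners: `cr_self`,
`cr_self'`, and `c` by `OT_cases`; body points by `Cel`.  So the first half of `Cross` is false. -/
theorem nc_side {a b c : Option Pt} (hc : OT B C a b c) {x y u v : Pt}
    (hx : some x = a ∨ some x = b ∨ some x = c) (hy : some y = a ∨ some y = b ∨ some y = c)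
    (hu : Cc P B a b c (some u)) (hv : Cc P B a b c (some v)) : ¬ Cross x y u v := by
  intro hX
  have hxy := hX.distinct.1
  have h1 := hX.1
  have kp : ∀ {a b c : Option Pt}, OT B C a b c → some x = a → some y = b →
      Cc P B a b c (some u) → Cc P B a b c (some v) → False := by
    intro a b c hc hx hy hu hv
    have k1 := n_key hc hx hy hu
    have k2 := n_key hc hx hy hv
    nlinarith [mul_nonneg k1 k2]
  have km : ∀ {a b c : Option Pt}, OT B C a b c → some y = a → some x = b →
      Cc P B a b c (some u) → Cc P B a b c (some v) → False := by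
    intro a b c hc hy hx hu hv
    have k1 := n_key hc hy hx hu
    have k2 := n_key hc hy hx hv
    rw [cr_swap] at k1 k2
    nlinarith [mul_nonneg k1 k2]
  have hc2 := OT_rot _ _ _ hc
  have hc3 := OT_rot _ _ _ hc2
  rcases hx with hx | hx | hx <;> rcases hy with hy | hy | hy
  · exact hxy (by simpa using hx.trans hy.symm)
  · exact kp hc hx hy hu hv
  · exact km hc3 hy hx hu.rot.rot hv.rot.rot
  · exact km hc hy hx hu hv
  · exact hxy (by simpa using hx.trans hy.symm)
  · exact kp hc2 hx hy hu.rot hv.rot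
  · exact kp hc3 hx hy hu.rot.rot hv.rot.rot
  · exact km hc2 hy hx hu.rot hv.rot
  · exact hxy (by simpa using hx.trans hy.symm)

/-- segments in different closed cells.
PROOF. Let `m` be the crossing point (`Cross.point`), a combination of `x`, `y` and of `u`, `v` with
positive weights. `m ∈ hull P`.
(0) If one of `x`, `y` is a body point then `Cel a b c m` (`cr_comb2`: for each finite side the
values at `x` and `y` are `≥ 0`, and one of them is `> 0`; corners have values `≥ 0`), same for `u`,
`v`.  If both segments have a body point: `cel_uniq`, contradiction to `hne`.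
(1) `x`, `y` both corners, `u` or `v` a body point: `Cel a' b' c' m`. `xy` is a side of `C` (finite
cell: clear; cap: `HE.side`). If `a' b' c'` is finite: `m` is in its interior (`mem_int_of_cr`), but
on the side `xy` of `C`: `side_disj_int` (Res.lean).  If it is a cap: `0 < cr w u m`, but
`m ∈ hull B`: `cr_hull_nonneg`.
(2) `u`, `v` both corners and `x` or `y` a body point: the same with the roles exchanged
(`Cross.swap`).
(3) all four are corners: both are sides of `C`: `STri.noCross`. -/
theorem nc_cells (hG : GP P) (h : Coarse P B C T) {a b c a' b' c' : Option Pt}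
    (hc : OT B C a b c) (hc' : OT B C a' b' c') (hne : ¬ Rot a b c a' b' c') {x y u v : Pt}
    (hx : Cc P B a b c (some x)) (hy : Cc P B a b c (some y)) (hu : Cc P B a' b' c' (some u))
    (hv : Cc P B a' b' c' (some v)) : ¬ Cross x y u v := by
  intro hX
  obtain ⟨hxy, -, -, -, -, huv⟩ := hX.distinct
  obtain ⟨s, t, s', t', hs, ht, hst, hs', ht', hst', hm⟩ := hX.point
  have hmP : s • x + t • y ∈ convexHull ℝ (P : Set Pt) :=
    (convex_convexHull ℝ _) (subset_convexHull _ _ (n_cc_mem h hc hx))
      (subset_convexHull _ _ (n_cc_mem h hc hy)) hs.le ht.le hst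
  by_cases h1 : Bdy P B a b c x ∨ Bdy P B a b c y <;>
    by_cases h2 : Bdy P B a' b' c' u ∨ Bdy P B a' b' c' v
  · have c1 := n_cel hc hs ht hst hx hy h1
    have c2 := n_cel hc' hs' ht' hst' hu hv h2
    rw [← hm] at c2
    exact hne (cel_uniq hG h hmP hc c1 hc' c2)
  · push Not at h2
    have c1 := n_cel hc hs ht hst hx hy h1
    rw [hm] at c1
    exact n_mid hG h hc' hc hs' ht' hst' (n_corner hu h2.1) (n_corner hv h2.2) huv c1
  · push Not at h1
    have c2 := n_cel hc' hs' ht' hst' hu hv h2
    rw [← hm] at c2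
    exact n_mid hG h hc hc' hs ht hst (n_corner hx h1.1) (n_corner hy h1.2) hxy c2
  · push Not at h1 h2
    exact h.tri.noCross (n_side hG h hc (n_corner hx h1.1) (n_corner hy h1.2) hxy)
      (n_side hG h hc' (n_corner hu h2.1) (n_corner hv h2.2) huv) hX

/-- a side of `C` is not crossed by a segment in a closed cell.
PROOF. `xy` is a side of a cell `a' b' c'` (a triangle of `C` contains `x` and `y`; write it
positively oriented). If it is a rotation of `a b c`: `nc_side`, otherwise `nc_cells`. -/
theorem nc_C (hG : GP P) (h : Coarse P B C T) {a b c : Option Pt}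
    (hc : OT B C a b c) {x y u v : Pt} (hs : Side C x y)
    (hu : Cc P B a b c (some u)) (hv : Cc P B a b c (some v)) : ¬ Cross x y u v := by
  -- the case of a positively oriented triangle
  have key : ∀ x y z : Pt, ({x, y, z} : Finset Pt) ∈ C → 0 < cr x y z → ¬ Cross x y u v := by
    intro x y z ht h0
    have hc' : OT B C (some x) (some y) (some z) := ⟨ht, h0⟩
    by_cases hR : Rot (some x) (some y) (some z) a b c
    · refine nc_side hc ?_ ?_ hu hv
      · rcases hR with ⟨h1, h2, h3⟩ | ⟨h1, h2, h3⟩ | ⟨h1, h2, h3⟩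
        · exact Or.inl h1.symm
        · exact Or.inr (Or.inr h3.symm)
        · exact Or.inr (Or.inl h2.symm)
      · rcases hR with ⟨h1, h2, h3⟩ | ⟨h1, h2, h3⟩ | ⟨h1, h2, h3⟩
        · exact Or.inr (Or.inl h2.symm)
        · exact Or.inl h1.symm
        · exact Or.inr (Or.inr h3.symm)
    · exact nc_cells hG h hc' hc hR (Or.inl rfl) (Or.inr (Or.inl rfl)) hu hv
  obtain ⟨hxy, t, ht, hxt, hyt⟩ := hs
  obtain ⟨z, rfl, hz⟩ := h.tri.side_cr ht hxy hxt hyt
  rcases lt_or_gt_of_ne hz with h0 | h0
  · intro hX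
    refine key y x z (by rwa [Finset.insert_comm] at ht) ?_ hX.flip1
    rw [cr_swap]
    linarith
  · exact key x y z ht h0

end MP91a79a

end
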