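import Pool.Agent.Lib.MP_91a79a_co.E.Def

/-! piece Q1 (MP_91a79a_co): plane lemmas for (Q) -/

noncomputable section

namespace MP91a79a

open Set Classical

private theorem q1_id (x a b c e : Pt) :
    cr x b c * cr x e a + cr x c a * cr x e b + cr x a b * cr x e c = 0 := by
  unfold cr; ring

private theorem q1_sw (x a b : Pt) : cr x b a = - cr x a b := by unfold cr; ring

/-- if `a`, `b`, `c` surround `x` then no functional is `≤ 0` on them (relative to `x`).
PROOF. `cr x b c • (a - x) + cr x c a • (b - x) + cr x a b • (c - x) = 0`; apply `lf α β`: all three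
values are `0`, so `α = β = 0` by Cramer (`cr x a b ≠ 0`). (`cr_lf3` in Deg.lean or `unfold`,
`ring_nf`, `nlinarith`.) -/
theorem surr_lf {x a b c : Pt} (h1 : 0 < cr x a b) (h2 : 0 < cr x b c) (h3 : 0 < cr x c a)
    {α β : ℝ} (h0 : α ≠ 0 ∨ β ≠ 0) (ha : lf α β a ≤ lf α β x) (hb : lf α β b ≤ lf α β x)
    (hc : lf α β c ≤ lf α β x) : False := by
  have e : cr x b c * (lf α β a - lf α β x) + cr x c a * (lf α β b - lf α β x) +
      cr x a b * (lf α β c - lf α β x) = 0 := by
    unfold cr lf; ring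
  have k1 : cr x b c * (lf α β a - lf α β x) ≤ 0 :=
    mul_nonpos_of_nonneg_of_nonpos h2.le (by linarith)
  have k2 : cr x c a * (lf α β b - lf α β x) ≤ 0 :=
    mul_nonpos_of_nonneg_of_nonpos h3.le (by linarith)
  have k3 : cr x a b * (lf α β c - lf α β x) ≤ 0 :=
    mul_nonpos_of_nonneg_of_nonpos h1.le (by linarith)
  have f1 : lf α β a - lf α β x = 0 := by
    have : cr x b c * (lf α β a - lf α β x) = 0 := by linarith
    rcases mul_eq_zero.1 this with h | h
    · exact absurd h h2.ne'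
    · exact h
  have f2 : lf α β b - lf α β x = 0 := by
    have : cr x c a * (lf α β b - lf α β x) = 0 := by linarith
    rcases mul_eq_zero.1 this with h | h
    · exact absurd h h3.ne'
    · exact h
  have g1 : α * cr x a b = (lf α β a - lf α β x) * (b.2 - x.2) -
      (lf α β b - lf α β x) * (a.2 - x.2) := by
    unfold cr lf; ring
  have g2 : β * cr x a b = (a.1 - x.1) * (lf α β b - lf α β x) -
      (b.1 - x.1) * (lf α β a - lf α β x) := by
    unfold cr lf; ring
  rw [f1, f2] at g1 g2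
  rcases h0 with h | h
  · rcases mul_eq_zero.1 (show α * cr x a b = 0 by linarith) with h' | h'
    · exact h h'
    · exact h1.ne' h'
  · rcases mul_eq_zero.1 (show β * cr x a b = 0 by linarith) with h' | h'
    · exact h h'
    · exact h1.ne' h'

/-- CONVEXITY CRITERION: `p` left, `q` right of `x → d`; if the quadrilateral is not convex then it
is reflex at `x` or at `d`.
PROOF. `cr x q p - cr d q p = cr x q d + cr x d p > 0` (`unfold cr; ring`), so if not
`cr x q p > 0 > cr d q p` (which is `Cross x d p q` up to signs: `cr p q x = - cr x q p`,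
`cr p q d = - cr d q p`) then `cr x q p ≤ 0` or `cr d q p ≥ 0`. -/
theorem reflex_or {x d p q : Pt} (hp : 0 < cr x d p) (hq : 0 < cr x q d) (h : ¬ Cross x d p q) :
    cr x q p ≤ 0 ∨ 0 ≤ cr d q p := by
  by_contra hcon
  push Not at hcon
  obtain ⟨h1, h2⟩ := hcon
  apply h
  refine ⟨?_, ?_⟩
  · have e : cr x d q = - cr x q d := by unfold cr; ring
    rw [e]
    nlinarith [mul_pos hp hq]
  · have e1 : cr p q x = - cr x q p := by unfold cr; ring
    have e2 : cr p q d = - cr d q p := by unfold cr; ring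
    rw [e1, e2]
    nlinarith [mul_pos h1 (neg_pos.2 h2)]

/-- the quadrilateral is not reflex at `d` if the three points are in an open half plane at `d`.
`κ = 1` or `κ = -1`.
PROOF. as `surr_lf`: `cr d x q • (p - d) + cr d q p • (x - d) + cr d p x • (q - d) = 0`; evaluate
the functional `κ * cr d e ·`: the coefficients `cr d x q = cr x q d > 0`, `cr d p x = cr x d p > 0`,
`cr d q p ≥ 0`, so the sum is `> 0`. -/
theorem not_reflex_d {x d p q e : Pt} {κ : ℝ} (hp : 0 < cr x d p) (hq : 0 < cr x q d)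
    (h : 0 ≤ cr d q p) (kx : 0 < κ * cr d e x) (kp : 0 < κ * cr d e p) (kq : 0 < κ * cr d e q) :
    False := by
  have e0 := q1_id d x q p e
  have e1 : cr d x q = cr x q d := by unfold cr; ring
  have e2 : cr d p x = cr x d p := by unfold cr; ring
  rw [e1, e2] at e0
  have e3 : cr d q p * (κ * cr d e x) + cr x d p * (κ * cr d e q) + cr x q d * (κ * cr d e p) = 0 := by
    linear_combination κ * e0
  have k1 := mul_nonneg h kx.le
  have k2 := mul_pos hp kq
  have k3 := mul_pos hq kp
  linarith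

/-- TWO REFLEX SECTORS DO NOT FIT. `p`, `q` resp. `p'`, `q'` are the apexes of the sides `xd` resp.
`xd'`, both reflex at `x`; no one of `d'`, `p'`, `q'` is in the open sectors `q d` and `d p` at `x`.
PROOF. `x = 0`. `q, d, p` surround `x` (consecutive angles `< 180`), so every vector `w` is in one
of the closed sectors `[q,d]`, `[d,p]`, `[p,q]`; by the hypotheses `hd'`, `hp'`, `hq'` (and GP: not
on the line `xd`: `hd'd`, `hp'd`, `hq'd`; if `w` is on the ray of `q` or `p` it is in the closed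
sector `[p,q]`) all of `d'`, `p'`, `q'` are in the closed sector `[p,q]`: `0 ≤ cr x p w` and
`0 ≤ cr x w q`, and for `w = d'` both are strict unless `d'` is parallel to `p` or `q` (excluded by
`hd'p`, `hd'q`).  As `q'`, `d'`, `p'` surround `x`, a positive combination of `q' - x`, `d' - x`,
`p' - x` is `0`; evaluate `cr x p ·`: all values `≥ 0`, the one at `d'` is `> 0`: contradiction. -/
theorem two_reflex {x d p q d' p' q' : Pt} (h1 : 0 < cr x q d) (h2 : 0 < cr x d p)
    (h3 : 0 < cr x p q) (h1' : 0 < cr x q' d') (h2' : 0 < cr x d' p') (h3' : 0 < cr x p' q')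
    (hd' : ¬ (0 < cr x q d' ∧ 0 < cr x d' d) ∧ ¬ (0 < cr x d d' ∧ 0 < cr x d' p))
    (hp' : ¬ (0 < cr x q p' ∧ 0 < cr x p' d) ∧ ¬ (0 < cr x d p' ∧ 0 < cr x p' p))
    (hq' : ¬ (0 < cr x q q' ∧ 0 < cr x q' d) ∧ ¬ (0 < cr x d q' ∧ 0 < cr x q' p))
    (hd'd : cr x d d' ≠ 0) (hp'd : cr x d p' ≠ 0) (hq'd : cr x d q' ≠ 0)
    (hd'p : cr x p d' ≠ 0) (hd'q : cr x q d' ≠ 0) : False := by
  have key : ∀ w : Pt, (¬ (0 < cr x q w ∧ 0 < cr x w d) ∧ ¬ (0 < cr x d w ∧ 0 < cr x w p)) →
      cr x d w ≠ 0 → 0 ≤ cr x p w ∧ 0 ≤ cr x w q := by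
    intro w hw hdw
    have e0 := q1_id x q d p w
    -- [dp][wq] + [pq][wd] + [qd][wp] = 0
    constructor
    · by_contra hcon
      push Not at hcon
      have a1 : 0 < cr x w p := by rw [q1_sw]; linarith
      have a2 : ¬ 0 < cr x d w := fun h => hw.2 ⟨h, a1⟩
      have a3 : cr x d w < 0 := lt_of_le_of_ne (not_lt.1 a2) hdw
      have a4 : 0 < cr x w d := by rw [q1_sw]; linarith
      have a5 : ¬ 0 < cr x q w := fun h => hw.1 ⟨h, a4⟩
      have a6 : 0 ≤ cr x w q := by rw [q1_sw]; linarith [not_lt.1 a5]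
      have k1 := mul_nonneg h2.le a6
      have k2 := mul_pos h3 a4
      have k3 := mul_pos h1 a1
      linarith
    · by_contra hcon
      push Not at hcon
      have a1 : 0 < cr x q w := by rw [q1_sw]; linarith
      have a2 : ¬ 0 < cr x w d := fun h => hw.1 ⟨a1, h⟩
      have a3 : 0 ≤ cr x d w := by rw [q1_sw]; linarith [not_lt.1 a2]
      have a4 : 0 < cr x d w := lt_of_le_of_ne a3 (Ne.symm hdw)
      have a5 : ¬ 0 < cr x w p := fun h => hw.2 ⟨a4, h⟩
      have b1 : cr x w q = - cr x q w := q1_sw _ _ _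
      have b2 : cr x w d = - cr x d w := q1_sw _ _ _
      rw [b1, b2] at e0
      have k1 := mul_pos h2 a1
      have k2 := mul_pos h3 a4
      have k3 : cr x q d * cr x w p ≤ 0 := mul_nonpos_of_nonneg_of_nonpos h1.le (not_lt.1 a5)
      nlinarith
  obtain ⟨a1, a2⟩ := key d' hd' hd'd
  obtain ⟨b1, b2⟩ := key p' hp' hp'd
  obtain ⟨c1, c2⟩ := key q' hq' hq'd
  have a1' : 0 < cr x p d' := lt_of_le_of_ne a1 (Ne.symm hd'p)
  have e0 := q1_id x q' d' p' p
  have k1 := mul_nonneg h2'.le c1
  have k2 := mul_pos h3' a1'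
  have k3 := mul_nonneg h1'.le b1
  linarith

end MP91a79a

end
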