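import Pool.Agent.Lib.MP_91a79a_co.E.L
import Pool.Agent.Lib.MP_91a79a_co.E.Q1
import Pool.Agent.Lib.MP_91a79a_co.G.G5

/-! piece Q2 (MP_91a79a_co): the minimal `T` has property (Q) -/

noncomputable section

namespace MP91a79a

open Set Classical

variable {P B : Finset Pt} {C T Tc : Finset (Finset Pt)} {col : Option Pt → Bool}

/-- the number of adjacent pairs (body point, hub) of different colours -/
def mxn (P B : Finset Pt) (T : Finset (Finset Pt)) (col : Option Pt → Bool) : ℕ :=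
  ((P ×ˢ B).filter (fun e => e.1 ∉ B ∧ col (some e.1) ≠ col (some e.2) ∧ Side T e.1 e.2)).card

/-- the two triangles at a side from a non-special point to a hub.
PROOF. `Ed (OT P T) (some x) (some d)` gives `OT P T (some x) (some d) p`, `OT_opp` gives
`OT P T (some d) (some x) q`.  By rotation `OT P T (some d) p (some x)` and
`OT P T q (some d) (some x)`, so `p, q ∉ Wp B` (otherwise `x ∈ Dst`; `d ∈ Wp B`), so
`p = some p'`, `q = some q'` are finite.  `cell_ex` for `x`, `loc` (rotations of the triangles) and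
`Cc.body`. -/
theorem q_apex (hG : GP P) (h : Coarse P B C T) {x d : Pt} (hx : x ∈ P) (hxD : x ∉ Dst P B T)
    (hd : d ∈ B) (he : Ed (OT P T) (some x) (some d)) :
    ∃ a b c p q, OT B C a b c ∧ Bdy P B a b c x ∧ Bdy P B a b c p ∧ Bdy P B a b c q ∧
      Cc P B a b c (some d) ∧
      OT P T (some x) (some d) (some p) ∧ OT P T (some d) (some x) (some q) := by
  have hT := h.big.strict hG
  have h3 : 3 ≤ P.card := h.card.trans (Finset.card_le_card h.sub)
  have hxB : x ∉ B := fun hc => hxD (Finset.mem_union_left _ hc)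
  have hdW : (some d : Option Pt) ∈ Wp B := mem_Wp_some.2 hd
  have hD : ∀ e e' : Option Pt, e ∈ Wp B → e' ∈ Wp B → ¬ OT P T e e' (some x) := by
    intro e e' h1 h2 h4
    exact hxD (Finset.mem_union_right _ (Finset.mem_filter.2 ⟨hx, e, h1, e', h2, h4⟩))
  obtain ⟨p0, hp0⟩ := he
  obtain ⟨q0, hq0⟩ := OT_opp hG hT h3 _ _ _ hp0
  have hpW : p0 ∉ Wp B := fun hc => hD _ _ hdW hc (OT_rot _ _ _ hp0)
  have hqW : q0 ∉ Wp B := fun hc => hD _ _ hc hdW (OT_rot _ _ _ (OT_rot _ _ _ hq0))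
  obtain ⟨p, rfl⟩ : ∃ p, p0 = some p := by
    rcases p0 with _ | p
    · exact absurd mem_Wp_none hpW
    · exact ⟨p, rfl⟩
  obtain ⟨q, rfl⟩ : ∃ q, q0 = some q := by
    rcases q0 with _ | q
    · exact absurd mem_Wp_none hqW
    · exact ⟨q, rfl⟩
  rw [mem_Wp_some] at hpW hqW
  obtain ⟨a, b, c, hc, hb⟩ := cell_ex hG h hx hxB
  obtain ⟨l1, l2⟩ := loc hG h hc hb hp0
  obtain ⟨l3, -⟩ := loc hG h hc hb (OT_rot _ _ _ hq0)
  exact ⟨a, b, c, p, q, hc, hb, l2.body hc h.tri hpW, l3.body hc h.tri hqW, l1, hp0, hq0⟩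

/-- the flip of such a side keeps everything and lowers `mxn`.
PROOF. `OT_flip`, `Side_flip` (G5.lean) with `(p, q, r, s) := (x, d, p, q)`: `T'`.
`Coarse`: `STri.toIs`; a side of `C` has both ends in `B` (`Side.mem`), and the removed side has the
end `x ∉ B` (`x ∉ Dst ⊇ B`).
`Dom`: the hub `d1` which dominates `y` still works unless `y = x`, `d1 = some d`; then use `d'`.
(`side_ed` and `Side_flip` for finite `d1`, `ed_inf'` for `none`.)
`Keep`: `OT P T (some p') (some q') (some z)` with `p', q' ∈ B` is not a rotation of `x d p` or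
`d x q` because these have only one vertex in `B`; so it is in `Flip`.
`mxn`: every pair counted for `T'` is counted for `T` (the new side `pq` has no end in `B`), and
`(x, d)` is counted for `T` but not for `T'` (`Side_flip`; the new side is not `xd`). -/
theorem q_flip (hG : GP P) (h : Coarse P B C T) (hdom : Dom P B T col)
    (hk : Keep P B C Tc T col) {x d p q : Pt} {d' : Option Pt} (hx : x ∈ P)
    (hxD : x ∉ Dst P B T) (hd : d ∈ B) (hp : p ∉ B) (hq : q ∉ B)
    (h1 : OT P T (some x) (some d) (some p)) (h2 : OT P T (some d) (some x) (some q))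
    (hcr : Cross x d p q) (hdc : col (some d) ≠ col (some x)) (hd' : d' ∈ Wp B)
    (hdd' : some d ≠ d') (he' : Ed (OT P T) (some x) d') (hdc' : col d' ≠ col (some x)) :
    ∃ T', Coarse P B C T' ∧ Dom P B T' col ∧ Keep P B C Tc T' col ∧
      mxn P B T' col < mxn P B T col := by
  have hT := h.big.strict hG
  have h3 : 3 ≤ P.card := h.card.trans (Finset.card_le_card h.sub)
  have hxB : x ∉ B := fun hc => hxD (Finset.mem_union_left _ hc)
  have hxd : x ≠ d := fun hc => hxB (hc ▸ hd)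
  obtain ⟨T', hT', hOT, hTe⟩ := OT_flip hG hT h1 h2 hcr
  have m1 : ({x, d, p} : Finset Pt) ∈ T := h1.1
  have m2 : ({x, d, q} : Finset Pt) ∈ T := by rw [← perm_bac]; exact h2.1
  have hSF := Side_flip hT m1 m2 hcr hTe
  obtain ⟨-, nxp, nxq, ndp, ndq, npq⟩ := hcr.distinct
  have tr : ∀ y : Pt, y ∉ B → ∀ e : Option Pt, Ed (OT P T) (some y) e →
      ¬ (y = x ∧ e = some d) → Ed (OT P T') (some y) e := by
    intro y hy e hye hn
    rcases e with _ | e
    · rw [ed_inf' hG hT' h3]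
      rwa [ed_inf' hG hT h3] at hye
    · rw [← side_ed hG hT'] 
      rw [← side_ed hG hT] at hye
      rw [hSF]
      left
      refine ⟨hye, ?_⟩
      rintro (⟨rfl, rfl⟩ | ⟨rfl, rfl⟩)
      · exact hn ⟨rfl, rfl⟩
      · exact hy hd
  refine ⟨T', ⟨h.sub, h.card, h.tri, h.hv, hT'.toIs, ?_⟩, ?_, ?_, ?_⟩
  · intro u w huw
    obtain ⟨hu, hw⟩ := Side.mem h.tri huw
    rw [hSF]
    left
    refine ⟨h.ref u w huw, ?_⟩
    rintro (⟨rfl, -⟩ | ⟨-, rfl⟩)
    · exact hxB hu
    · exact hxB hw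
  · intro y hy hyB
    obtain ⟨d1, hd1, hc1, he1⟩ := hdom y hy hyB
    by_cases hc : y = x ∧ d1 = some d
    · obtain ⟨rfl, rfl⟩ := hc
      exact ⟨d', hd', hdc', tr y hyB d' he' (fun hc => hdd' hc.2.symm)⟩
    · exact ⟨d1, hd1, hc1, tr y hyB d1 he1 hc⟩
  · intro p' q' r z hcell hz hcol htc
    have hold := hk p' q' r z hcell hz hcol htc
    have hp' : p' ∈ B := mem_Wp_some.1 (OT_mem h.tri _ _ _ hcell)
    have hq' : q' ∈ B := mem_Wp_some.1 (OT_mem h.tri _ _ _ (OT_rot _ _ _ hcell))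
    rw [hOT]
    left
    refine ⟨hold, ?_, ?_⟩
    · unfold Rot
      simp only [Option.some.injEq]
      rintro (⟨rfl, -, -⟩ | ⟨-, rfl, -⟩ | ⟨rfl, -, -⟩)
      · exact hxB hp'
      · exact hp hq'
      · exact hp hp'
    · unfold Rot
      simp only [Option.some.injEq]
      rintro (⟨-, rfl, -⟩ | ⟨rfl, -, -⟩ | ⟨rfl, -, -⟩)
      · exact hxB hq'
      · exact hxB hp'
      · exact hq hp'
  · unfold mxn
    apply Finset.card_lt_card
    rw [Finset.ssubset_iff_of_subset]
    · refine ⟨(x, d), ?_, ?_⟩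
      · rw [Finset.mem_filter, Finset.mem_product]
        exact ⟨⟨hx, hd⟩, hxB, fun hc => hdc hc.symm, hxd, _, m1, by simp, by simp⟩
      · rw [Finset.mem_filter]
        rintro ⟨-, -, -, hs⟩
        rw [hSF] at hs
        rcases hs with ⟨-, hn⟩ | ⟨hxp, -⟩ | ⟨hxq, -⟩
        · exact hn (Or.inl ⟨rfl, rfl⟩)
        · exact nxp hxp
        · exact nxq hxq
    · rintro ⟨e1, e2⟩ he
      rw [Finset.mem_filter, Finset.mem_product] at he ⊢
      obtain ⟨⟨h4, h5⟩, h6, h7, h8⟩ := he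
      refine ⟨⟨h4, h5⟩, h6, h7, ?_⟩
      rw [hSF] at h8
      rcases h8 with ⟨h8, -⟩ | ⟨-, h8⟩ | ⟨-, h8⟩
      · exact h8
      · exact absurd (h8 ▸ h5) hq
      · exact absurd (h8 ▸ h5) hp

/-- all body points are on one side of a line through a finite corner -/
private theorem Q2_side {d0 : Pt} {b c : Option Pt} (hc : OT B C (some d0) b c) :
    ∃ (e : Pt) (κ : ℝ), ∀ y, Bdy P B (some d0) b c y → 0 < κ * cr d0 e y := by
  rcases b with _ | b
  · rcases c with _ | c
    · simp only [OT] at hc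
    · refine ⟨c, -1, fun y hy => ?_⟩
      have h1 : 0 < cr c d0 y := hy.2.2.2.2
      rw [cr_swap] at h1
      linarith
  · refine ⟨b, 1, fun y hy => ?_⟩
    have h1 : 0 < cr d0 b y := hy.2.2.1
    linarith

private theorem Q2_side' {d0 : Pt} {a b c : Option Pt} (hc : OT B C a b c)
    (hd : some d0 = a ∨ some d0 = b ∨ some d0 = c) :
    ∃ (e : Pt) (κ : ℝ), ∀ y, Bdy P B a b c y → 0 < κ * cr d0 e y := by
  rcases hd with rfl | rfl | rfl
  · exact Q2_side hc
  · obtain ⟨e, κ, h⟩ := Q2_side (P := P) (OT_rot _ _ _ hc)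
    exact ⟨e, κ, fun y hy => h y hy.rot⟩
  · obtain ⟨e, κ, h⟩ := Q2_side (P := P) (OT_rot _ _ _ (OT_rot _ _ _ hc))
    exact ⟨e, κ, fun y hy => h y hy.rot.rot⟩

/-- the two apexes at a mixed side of a non-special point, for minimal `T` -/
private theorem Q2_claim (hG : GP P) (h : Coarse P B C T) (hdom : Dom P B T col)
    (hk : Keep P B C Tc T col)
    (hmin : ∀ T', Coarse P B C T' → Dom P B T' col → Keep P B C Tc T' col →
      mxn P B T col ≤ mxn P B T' col) {x d : Pt} {d' : Option Pt} (hx : x ∈ P)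
    (hxD : x ∉ Dst P B T) (hd : d ∈ B) (he : Ed (OT P T) (some x) (some d))
    (hdc : col (some d) ≠ col (some x)) (hd' : d' ∈ Wp B)
    (hdd' : some d ≠ d') (he' : Ed (OT P T) (some x) d') (hdc' : col d' ≠ col (some x)) :
    ∃ p q, p ∈ P ∧ p ∉ B ∧ q ∈ P ∧ q ∉ B ∧ ({x, d, p} : Finset Pt) ∈ T ∧
      ({x, q, d} : Finset Pt) ∈ T ∧ 0 < cr x q d ∧ 0 < cr x d p ∧ 0 < cr x p q := by
  obtain ⟨a, b, c, p, q, hc, bx, bp, bq, cd, h1, h2⟩ := q_apex hG h hx hxD hd he
  have c1 : 0 < cr x d p := h1.2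
  have c2 : 0 < cr x q d := by rw [← cr_rot]; exact h2.2
  have hncr : ¬ Cross x d p q := by
    intro hcr
    obtain ⟨T', g1, g2, g3, g4⟩ := q_flip hG h hdom hk hx hxD hd bp.2.1 bq.2.1 h1 h2 hcr hdc hd'
      hdd' he' hdc'
    exact absurd (hmin T' g1 g2 g3) (not_le.2 g4)
  have hxpq : cr x q p ≤ 0 := by
    rcases reflex_or c1 c2 hncr with h5 | h5
    · exact h5
    · exfalso
      obtain ⟨e, κ, hs⟩ := Q2_side' (P := P) hc (cd.corner (mem_Wp_some.2 hd))
      exact not_reflex_d c1 c2 h5 (hs x bx) (hs p bp) (hs q bq)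
  have npq : q ≠ p := by
    rintro rfl
    have : cr x d q = - cr x q d := by unfold cr; ring
    linarith
  have hne := hG x hx q bq.1 p bp.1 (ne_of_cr c2.ne').1 (ne_of_cr c1.ne').2.1 npq
  refine ⟨p, q, bp.1, bp.2.1, bq.1, bq.2.1, h1.1, ?_, c2, c1, ?_⟩
  · have h6 : ({d, x, q} : Finset Pt) ∈ T := h2.1
    rw [perm_cab x q d] at h6
    exact h6
  · have : cr x p q = - cr x q p := by unfold cr; ring
    rw [this]
    have := lt_of_le_of_ne hxpq hne
    linarith

private theorem Q2_main (hG : GP P) (h : Coarse P B C T) (hdom : Dom P B T col)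
    (hk : Keep P B C Tc T col)
    (hmin : ∀ T', Coarse P B C T' → Dom P B T' col → Keep P B C Tc T' col →
      mxn P B T col ≤ mxn P B T' col) {x d : Pt} {d' : Option Pt} (hx : x ∈ P)
    (hxD : x ∉ Dst P B T) (hd : d ∈ B) (he : Ed (OT P T) (some x) (some d))
    (hdc : col (some d) ≠ col (some x)) (hd' : d' ∈ Wp B)
    (hdd' : some d ≠ d') (he' : Ed (OT P T) (some x) d') (hdc' : col d' ≠ col (some x)) :
    False := by
  have hT := h.big.strict hG
  have h3 : 3 ≤ P.card := h.card.trans (Finset.card_le_card h.sub)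
  have hxB : x ∉ B := fun hc => hxD (Finset.mem_union_left _ hc)
  obtain ⟨p, q, hp, hpB, hq, hqB, t1, t2, c1, c2, c3⟩ :=
    Q2_claim hG h hdom hk hmin hx hxD hd he hdc hd' hdd' he' hdc'
  rcases d' with _ | d'
  · rw [ed_inf' hG hT h3] at he'
    obtain ⟨-, α, β, h0, hle⟩ := he'
    exact surr_lf c1 c2 c3 h0 (hle q hq) (hle d (h.sub hd)) (hle p hp)
  · rw [mem_Wp_some] at hd'
    have hne : d ≠ d' := fun hc => hdd' (by rw [hc])
    obtain ⟨p', q', hp', hpB', hq', hqB', t1', t2', c1', c2', c3'⟩ :=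
      Q2_claim hG h hdom hk hmin hx hxD hd' he' hdc' (mem_Wp_some.2 hd)
        (fun hc => hne (Option.some.inj hc).symm) he hdc
    have hdP := h.sub hd
    have hdP' := h.sub hd'
    have nxd : x ≠ d := fun hc => hxB (hc ▸ hd)
    have nxd' : x ≠ d' := fun hc => hxB (hc ▸ hd')
    have nxp : x ≠ p := (ne_of_cr c2.ne').2.1
    have nxq : x ≠ q := (ne_of_cr c1.ne').1
    have nxp' : x ≠ p' := (ne_of_cr c2'.ne').2.1
    have nxq' : x ≠ q' := (ne_of_cr c1'.ne').1
    have s1 : Side T x d' := ⟨nxd', _, t1', by simp, by simp⟩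
    have s2 : Side T x p' := ⟨nxp', _, t1', by simp, by simp⟩
    have s3 : Side T x q' := ⟨nxq', _, t2', by simp, by simp⟩
    have key : ∀ y, Side T x y → ¬ (0 < cr x q y ∧ 0 < cr x y d) ∧
        ¬ (0 < cr x d y ∧ 0 < cr x y p) := by
      intro y hy
      exact ⟨fun hc => hT.no_side_in t2 hy hc.1 hc.2 c1, fun hc => hT.no_side_in t1 hy hc.1 hc.2 c2⟩
    exact two_reflex c1 c2 c3 c1' c2' c3' (key d' s1) (key p' s2) (key q' s3)
      (hG x hx d hdP d' hdP' nxd nxd' hne)
      (hG x hx d hdP p' hp' nxd nxp' (fun hc => hpB' (hc ▸ hd)))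
      (hG x hx d hdP q' hq' nxd nxq' (fun hc => hqB' (hc ▸ hd)))
      (hG x hx p hp d' hdP' nxp nxd' (fun hc => hpB (hc ▸ hd')))
      (hG x hx q hq d' hdP' nxq nxd' (fun hc => hqB (hc ▸ hd')))

/-- PROOF. Take `T` with `mxn` minimal (`Nat.find` or `exists_minimal`).  Let `x ∈ P`, `x ∉ Dst`,
`d ≠ d'` two neighbours of the other colour.  Both are in `Wp B`: `cell_ex`, `loc`: `d` is a corner
or a body point `y` of the cell of `x`; body points have the same colour as `x`: this is the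
hypothesis `hb`. Not both are `none`; say `d = some d0` (else exchange).  `q_apex`: `p`, `q`, both
in the body, `0 < cr x d0 p`, `0 < cr d0 x q`.  By minimality and `q_flip` not `Cross x d0 p q`.
`reflex_or`: reflex at `x` or at `d0`. Reflex at `d0` is impossible by `not_reflex_d`: `d0` is a
corner of the cell (`Cc.corner`), and for a finite cell, or a cap, there is another finite corner
`e` such that all body points are strictly on the same side of the line `d0 e` (`Cel`; `κ = ±1`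
according to whether the side is `d0 → e` or `e → d0`).  So `cr x q p ≤ 0`, in fact `< 0`
(GP; `x, p, q` distinct because `cr x d0 p > 0`, `cr d0 x q > 0`, `p ≠ q`: opposite sides of `x d0`).
If `d' = none`: `HV P x` (`ed_inf'`), and `surr_lf` with the supporting functional (`q`, `d0`, `p`
surround `x`) is a contradiction.  If `d' = some d0'`: the same for `d0'`: `p'`, `q'`; apply
`two_reflex`: the hypotheses `hd'`, `hp'`, `hq'` are `STri.no_side_in` (FlipEx.lean) for the
triangles `{x,q,d0}`, `{x,d0,p}` of `T` and the sides `x d0'`, `x p'`, `x q'`; the `≠ 0` facts are GP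
and distinctness (`d0' ≠ d0`; `p', q' ∉ B` so `≠ d0`; `p, q ∉ B` so `≠ d0'`). -/
theorem exists_q (hG : GP P)
    (hb : ∀ a b c x y, OT B C a b c → Bdy P B a b c x → Bdy P B a b c y →
      col (some x) = col (some y))
    (hex : ∃ T, Coarse P B C T ∧ Dom P B T col ∧ Keep P B C Tc T col) :
    ∃ T, Coarse P B C T ∧ Dom P B T col ∧ Keep P B C Tc T col ∧ Qone P B T col := by
  have hS : ∃ n : ℕ, ∃ T, (Coarse P B C T ∧ Dom P B T col ∧ Keep P B C Tc T col) ∧
      mxn P B T col = n := by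
    obtain ⟨T, hT⟩ := hex
    exact ⟨_, T, hT, rfl⟩
  obtain ⟨T, ⟨h, hdom, hk⟩, hn⟩ := Nat.find_spec hS
  have hmin : ∀ T', Coarse P B C T' → Dom P B T' col → Keep P B C Tc T' col →
      mxn P B T col ≤ mxn P B T' col := by
    intro T' g1 g2 g3
    rw [hn]
    exact Nat.find_min' hS ⟨T', ⟨g1, g2, g3⟩, rfl⟩
  refine ⟨T, h, hdom, hk, ?_⟩
  intro x hx hxD d d' he he' hc hc'
  have hxB : x ∉ B := fun hc => hxD (Finset.mem_union_left _ hc)
  obtain ⟨a, b, c, hcell, hbx⟩ := cell_ex hG h hx hxB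
  have hW : ∀ e, Ed (OT P T) (some x) e → col e ≠ col (some x) → e ∈ Wp B := by
    intro e hee hce
    obtain ⟨z, hz⟩ := hee
    rcases (loc hG h hcell hbx hz).1 with rfl | rfl | rfl | ⟨y, rfl, hy⟩
    · exact OT_mem h.tri _ _ _ hcell
    · exact OT_mem h.tri _ _ _ (OT_rot _ _ _ hcell)
    · exact OT_mem h.tri _ _ _ (OT_rot _ _ _ (OT_rot _ _ _ hcell))
    · exact absurd (hb a b c x y hcell hbx hy).symm hce
  have hdW := hW d he hc
  have hdW' := hW d' he' hc'
  by_contra hne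
  rcases d with _ | d
  · rcases d' with _ | d'
    · exact hne rfl
    · exact Q2_main hG h hdom hk hmin hx hxD (mem_Wp_some.1 hdW') he' hc' hdW
        (fun hh => hne hh.symm) he hc
  · exact Q2_main hG h hdom hk hmin hx hxD (mem_Wp_some.1 hdW) he hc hdW' hne he' hc'

end MP91a79a

end
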