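import Pool.Agent.Lib.MP_91a79a_co.E.Def

/-! piece S1 (MP_91a79a_co): every triangle of the sphere of `T` lies in a closed cell -/

noncomputable section

namespace MP91a79a

open Set Classical

variable {P B : Finset Pt} {C T : Finset (Finset Pt)}

/-- finite case.
PROOF. `{x,y,z} = t ∈ T`. (1) If some `F ∈ C` has `interior (hull t) ∩ interior (hull F) ≠ ∅`:
`restr_dich` (Res.lean) with `Q = pin P F` (`face_hull` in Red.lean gives the hypothesis `hull`;
`hQP`: a point of `P` in the hull of `pin P F ⊆ hull F` is in `pin P F`; `3 ≤ card`: `F ⊆ pin P F`)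
gives `t ⊆ pin P F` (the second alternative is impossible).  Write `F = {a,b,c}`, `0 < cr a b c`
(`repr_tri`), the cell is `(some a, some b, some c)`.  By `tri_mem_or_int` (Select.lean) every vertex
of `t` is in `F` or in the interior of `F`, then `cr_of_int` gives `Cel`, and it is not in `B`
(`STri.strict` for `B`, `C` would give that it is a vertex of `F`, but vertices are not interior
points: `vertex_not_int`).
(2) Otherwise take `m ∈ interior (hull t)` (`tri_int_nonempty`).  `m ∉ hull B`: otherwise `m ∈ hull F`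
for some `F ∈ C` (`tri_mem_cover` or `hC.cover`) and by `disj_hull_of_disj`/`STri.disj_hull` the
interiors meet. `hull_sep` (Red.lean) gives `HE B u w`, `cr u w m < 0`.  Let `Q = lft P w u` (points
`x ∈ P` with `0 ≤ cr w u x`).  Some point of `P` has `cr u w p < 0` (otherwise `cr_hull_nonneg`, as
`m ∈ hull P`), and a third point of `B` is strictly on the other side (`HE.pos`), so `Chord P w u`
(`h.hv`, `HE.hv_left`, `HE.hv_right`).  `restr_dich` with this `Q` (hypotheses: `Chord.hull`,
`Chord.lft_closed`, `Chord.card_lft`; `Side T w u` by `HE.side` and `h.ref`): either `t ⊆ Q`, or the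
interior of `t` is disjoint from `hull Q`; the second is impossible: `m ∈ hull P` and `0 ≤ cr w u m`
give `m ∈ hull Q` (`Chord.cover_left`).  So `t ⊆ lft P w u`; the cell is `(some w, some u, none)`
(`OT B C (some w) (some u) none = HE B u w`); a vertex `p` of `t` has `0 ≤ cr w u p`; if `= 0` then
`p = u` or `p = w` (`GP.mem_of_cr`), if `> 0` then `Cel`, and `p ∉ B` because `0 ≤ cr u w p` for
`p ∈ B`.  (`cr_swap`.) -/
theorem sub_cell_fin (hG : GP P) (h : Coarse P B C T) {t : Finset Pt} (ht : t ∈ T) :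
    ∃ a b c, OT B C a b c ∧ ∀ p ∈ t, Cc P B a b c (some p) := by
  have hB := hG.mono h.sub
  have htP : t ⊆ P := h.big.sub t ht
  by_cases hcase : ∃ F ∈ C, ¬ Disjoint (interior (convexHull ℝ (t : Set Pt)))
      (interior (convexHull ℝ (F : Set Pt)))
  · obtain ⟨F, hF, hnd⟩ := hcase
    have hFP : F ⊆ P := (h.tri.sub F hF).trans h.sub
    have hcp := conv_pin hFP
    have h3 : 3 ≤ (pin P F).card := by
      rw [← h.tri.card F hF]
      exact Finset.card_le_card (sub_pin hFP)
    rcases restr_dich h.big (pin_sub P F) (hG.mono (pin_sub P F)) h3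
      (fun p hp hp' => mem_pin.2 ⟨hp, hcp ▸ hp'⟩) (face_hull hG h.sub h.tri h.ref hF) ht with h4 | h4
    · obtain ⟨a, b, c, rfl, habc⟩ := repr_tri (h.tri.card F hF) (h.tri.nondeg F hF)
      refine ⟨some a, some b, some c, ⟨hF, habc⟩, fun p hp => ?_⟩
      obtain ⟨hpP, hpF⟩ := mem_pin.1 (h4 hp)
      rcases tri_mem_or_int hG hFP (h.tri.card _ hF) (h.tri.nondeg _ hF) hpP hpF with h5 | h5
      · simp only [Finset.mem_insert, Finset.mem_singleton] at h5
        rcases h5 with rfl | rfl | rfl
        · exact Or.inl rfl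
        · exact Or.inr (Or.inl rfl)
        · exact Or.inr (Or.inr (Or.inl rfl))
      · refine Or.inr (Or.inr (Or.inr ⟨p, rfl, hpP, ?_, ?_⟩))
        · intro hpB
          have h6 := h.tri.strict _ hF p hpB hpF
          rw [coe3] at h5
          exact vertex_not_int habc h6 h5
        · rw [coe3] at h5
          obtain ⟨h6, h7, h8⟩ := cr_of_int habc h5
          exact ⟨h6, h7, h8⟩
    · exfalso
      apply hnd
      rw [hcp] at h4
      exact h4.mono_right interior_subset
  · push Not at hcase
    obtain ⟨m, hm⟩ := tri_int_nonempty h.big ht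
    have hmB : m ∉ convexHull ℝ (B : Set Pt) := by
      intro hmB
      rw [← h.tri.cover] at hmB
      simp only [Set.mem_iUnion] at hmB
      obtain ⟨F, hF, hmF⟩ := hmB
      have hd := (hcase F hF).symm
      obtain ⟨a, b, c, rfl, habc⟩ := repr_tri (h.tri.card F hF) (h.tri.nondeg F hF)
      rw [coe3] at hd hmF
      exact Set.disjoint_left.1 (disj_hull_of_disj habc.ne' isOpen_interior hd) hmF hm
    obtain ⟨u, w, huw, hneg⟩ := hull_sep hB h.card hmB
    have hmt : m ∈ convexHull ℝ (t : Set Pt) := interior_subset hm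
    have hmP : m ∈ convexHull ℝ (P : Set Pt) := convexHull_mono (Finset.coe_subset.2 htP) hmt
    obtain ⟨y, hy, hyu, hyw⟩ : ∃ y ∈ B, y ≠ u ∧ y ≠ w := by
      by_contra hcon
      push Not at hcon
      have hsub : B ⊆ {u, w} := by
        intro x hx
        by_cases hxa : x = u
        · simp [hxa]
        · simp [hcon x hx hxa]
      have h1 := Finset.card_le_card hsub
      have h2 : ({u, w} : Finset Pt).card ≤ 2 := Finset.card_le_two
      have h3 := h.card
      omega
    have hch : Chord P w u := by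
      refine ⟨hG, h.sub huw.2.1, h.sub huw.1, h.hv _ huw.2.1 huw.hv_right,
        h.hv _ huw.1 huw.hv_left, ?_, ⟨y, h.sub hy, ?_⟩⟩
      · by_contra hcon
        push Not at hcon
        have h1 := cr_hull_nonneg (a := u) (b := w) (fun p hp => by
          have := hcon p hp
          rw [cr_swap] at this
          linarith) hmP
        linarith
      · have := huw.pos hB hy hyu hyw
        rw [cr_swap]; linarith
    rcases restr_dich h.big (lft_sub P w u) (hG.mono (lft_sub P w u)) hch.card_lft
      (fun p hp hp' => Chord.lft_closed hp hp')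
      (hch.hull h.big (h.ref _ _ (huw.side hB h.tri)).symm) ht with h4 | h4
    · refine ⟨some w, some u, none, huw, fun p hp => ?_⟩
      obtain ⟨hpP, hp0⟩ := mem_lft.1 (h4 hp)
      rcases hp0.eq_or_lt with h5 | h5
      · rcases hG.mem_of_cr (h.sub huw.2.1) (h.sub huw.1) hpP huw.2.2.1.symm h5.symm with rfl | rfl
        · exact Or.inl rfl
        · exact Or.inr (Or.inl rfl)
      · refine Or.inr (Or.inr (Or.inr ⟨p, rfl, hpP, ?_, h5, trivial, trivial⟩))
        intro hpB
        have := huw.2.2.2 p hpB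
        rw [cr_swap] at this
        linarith
    · exfalso
      refine Set.disjoint_left.1 h4 hm (hch.cover_left hmP ?_)
      rw [cr_swap]
      linarith

/-- infinite case.
PROOF. `HE P y x` is a side of `T` (`HE.side` with `P`, `T`; `h.big.strict hG`), so there is a
triangle `t ∈ T` with `x, y ∈ t`; take the closed cell of `sub_cell_fin`.  If it is a cap
(`OT_cases`), `none` is a corner and we are done.  If it is a finite cell `{a,b,c} ∈ C`: `x` and `y`
are hull vertices of `P` (`HE.hv_left`, `HE.hv_right`), so they are not in the open triangle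
(`HV.not_in_tri`), so both are corners, in `B`, so `HE B y x` (`HE B` is `HE P` restricted:
unfold `HE`, `B ⊆ P`), and the cell `(none, some x, some y)` works. -/
theorem sub_cell_inf (hG : GP P) (h : Coarse P B C T) {x y : Pt} (ht : HE P y x) :
    ∃ a b c, OT B C a b c ∧ Cc P B a b c none ∧ Cc P B a b c (some x) ∧ Cc P B a b c (some y) := by
  obtain ⟨hne, t, htT, hyt, hxt⟩ := ht.side hG (h.big.strict hG)
  obtain ⟨a, b, c, hO, hall⟩ := sub_cell_fin hG h htT
  have hx := hall x hxt
  have hy := hall y hyt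
  rcases OT_cases hO with ⟨p, q, r, rfl, rfl, rfl, hC, -⟩ | ⟨u, w, -, hcap⟩
  · have hsubP : ({p, q, r} : Finset Pt) ⊆ P := (h.tri.sub _ hC).trans h.sub
    have hp : p ∈ ({p, q, r} : Finset Pt) := by simp
    have hq : q ∈ ({p, q, r} : Finset Pt) := by simp
    have hr : r ∈ ({p, q, r} : Finset Pt) := by simp
    have key : ∀ v, HV P v → Cc P B (some p) (some q) (some r) (some v) → v ∈ B := by
      rintro v hv (h1 | h1 | h1 | ⟨v', h1, -, -, h2, h3, h4⟩)
      · exact (Option.some.inj h1) ▸ h.tri.sub _ hC hp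
      · exact (Option.some.inj h1) ▸ h.tri.sub _ hC hq
      · exact (Option.some.inj h1) ▸ h.tri.sub _ hC hr
      · obtain rfl := Option.some.inj h1
        exact (hv.not_in_tri (hsubP hp) (hsubP hq) (hsubP hr) h2 h3 h4).elim
    have hxB := key x ht.hv_right hx
    have hyB := key y ht.hv_left hy
    exact ⟨none, some x, some y, ⟨hyB, hxB, ht.2.2.1, fun z hz => ht.2.2.2 z (h.sub hz)⟩,
      Or.inl rfl, Or.inr (Or.inl rfl), Or.inr (Or.inr (Or.inl rfl))⟩
  · refine ⟨a, b, c, hO, ?_, hx, hy⟩
    rcases hcap with ⟨rfl, -, -⟩ | ⟨-, -, rfl⟩ | ⟨-, rfl, -⟩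
    · exact Or.inl rfl
    · exact Or.inr (Or.inr (Or.inl rfl))
    · exact Or.inr (Or.inl rfl)

/-- PROOF. `OT_cases` for `P`, `T` and the two lemmas above. -/
theorem sub_cell (hG : GP P) (h : Coarse P B C T) {x y z : Option Pt} (ht : OT P T x y z) :
    ∃ a b c, OT B C a b c ∧ Cc P B a b c x ∧ Cc P B a b c y ∧ Cc P B a b c z := by
  rcases OT_cases ht with ⟨p, q, r, rfl, rfl, rfl, hT, -⟩ | ⟨u, w, huw, hcap⟩
  · obtain ⟨a, b, c, hO, hall⟩ := sub_cell_fin hG h hT
    exact ⟨a, b, c, hO, hall p (by simp), hall q (by simp), hall r (by simp)⟩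
  · obtain ⟨a, b, c, hO, h0, hw, hu⟩ := sub_cell_inf hG h huw
    refine ⟨a, b, c, hO, ?_⟩
    rcases hcap with ⟨rfl, rfl, rfl⟩ | ⟨rfl, rfl, rfl⟩ | ⟨rfl, rfl, rfl⟩
    · exact ⟨h0, hw, hu⟩
    · exact ⟨hw, hu, h0⟩
    · exact ⟨hu, h0, hw⟩

end MP91a79a

end
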