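import Pool.Agent.Lib.MP_91a79a_co.E.L

/-! piece Wid (MP_91a79a_co): the edges which are never flipped are wide -/

noncomputable section

namespace MP91a79a

open Set Classical

variable {P B : Finset Pt} {C T Tc : Finset (Finset Pt)} {col : Option Pt → Bool}
  {G : Pt → Pt → Prop}

/-- `g` is in the sector `h1 v h2`, `h1` and `h2` are in the sector `d1 v d2 < 180`.
PROOF. If `g = h1` or `g = h2` clear. Otherwise `0 < cr v h1 g`, `0 < cr v g h2`.
`0 < cr v h1 h2`: if `h1 = d1` this is `h6`, otherwise `ang_trans` (Rank.lean) with `o = v`,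
`e = d1`. Then `cr_lf3` (Deg.lean):
`cr v h1 h2 * (f g - f v) = cr v g h2 * (f h1 - f v) + cr v h1 g * (f h2 - f v)`. -/
theorem sector_lf {v d1 h1 g h2 : Pt} {α β : ℝ} (hg : lf α β v < lf α β g)
    (a1 : g = h1 ∨ 0 < cr v h1 g) (a2 : g = h2 ∨ 0 < cr v g h2)
    (a3 : h1 = d1 ∨ 0 < cr v d1 h1) (a4 : 0 < cr v d1 g) (h6 : 0 < cr v d1 h2) :
    lf α β v < lf α β h1 ∨ lf α β v < lf α β h2 := by
  rcases a1 with rfl | b1
  · exact Or.inl hg
  rcases a2 with rfl | b2
  · exact Or.inr hg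
  have h12 : 0 < cr v h1 h2 := by
    rcases a3 with rfl | b3
    · exact h6
    · exact ang_trans b3 a4 h6 b1 b2
  by_contra hcon
  push Not at hcon
  have e := cr_lf3 α β v g h1 h2
  have e1 : 0 < cr v h1 h2 * (lf α β g - lf α β v) := mul_pos h12 (by linarith)
  have e2 : cr v g h2 * (lf α β h1 - lf α β v) ≤ 0 :=
    mul_nonpos_of_nonneg_of_nonpos b2.le (by linarith [hcon.1])
  have e3 : cr v h1 g * (lf α β h2 - lf α β v) ≤ 0 :=
    mul_nonpos_of_nonneg_of_nonpos b1.le (by linarith [hcon.2])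
  linarith

private theorem Wid_tri {x y z : Pt} (hT : STri P T) (h : {x, y, z} ∈ T) (h0 : 0 < cr x y z) :
    Side T x y ∧ Side T x z := by
  obtain ⟨n1, n2, n3⟩ := ne_of_cr h0.ne'
  exact ⟨⟨n1, _, h, by simp, by simp⟩, ⟨n2, _, h, by simp, by simp⟩⟩

/-- PROOF. `x ∉ B`: `STri.surround` (FlipEx.lean) in `T` gives a side; `side_ed`; the second half
of `XE` is void because `some x ∉ Wp B`.
`x = v ∈ B`: `¬ HV B v` by `h.hv`.  `hw` gives `g` with `lf α β v < lf α β g`.
If `G v g`: `Side C v g`, `h.ref`, `side_ed`, and `Gp B G (some v) (some g)` is `G v g`.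
If `Side Tc v g`, `g ∉ B`: `cell_ex` (for `hTc`) gives the cell of `g`; `side_ed`: there is
`OT P Tc (some g) (some v) y` and `loc` (for `hTc`): `v` is a corner (`Cc.corner`); rotate so that
the cell is `(some v, b, c)`.  If `b` or `c` is `none` then `v` is an end of a hull edge of `B`, so
`HV B v` (`HE.hv_left`, `HE.hv_right`): contradiction.  So `b = some d1`, `c = some d2`.
`apex` (for `hTc`): `OT P Tc (some v) (some d1) (some z1)` and, for the rotated cell
`(some d2, some v, some d1)`, `OT P Tc (some d2) (some v) (some z2)`, with `z1`, `z2` in the body.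
Let `h1 := if col (some v) = col (some d1) then z1 else d1`, same `h2` with `d2`, `z2`.
`XE v h1`: if `h1 = d1`: side of `C`, colours different.  If `h1 = z1`: `Keep` gives
`OT P T (some v) (some d1) (some z1)`, so `Ed (OT P T) (some v) (some z1)` (`OT_opp`, `OT_rot` or
`side_ed`), and `z1 ∉ B`.  Same for `h2` (`Keep` with the rotated cell).
`sector_lf`: `cr v d1 g > 0`, `cr v d1 z > 0`, `cr v z d2 > 0` for body points `z` (`Cel`, `cr_rot`),
`cr v d1 d2 > 0`.  `a1` for `h1 = z1`: GP and `STri.no_side_in` for the triangle `{v,d1,z1}` of `Tc`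
and the side `v g`; `a2` for `h2 = z2`: `STri.no_side_in` for `{v,z2,d2}`. -/
theorem xe_wide (hG : GP P) (h : Coarse P B C T) (hTc : Coarse P B C Tc)
    (hK : Keep P B C Tc T col) (hGs : ∀ u w, G u w → Side C u w)
    (hw : ∀ v ∈ B, ¬ HV B v → Wide (fun u => (Side Tc v u ∧ u ∉ B) ∨ G v u) v)
    {x : Pt} (hx : x ∈ P) (hv : ¬ HV P x) :
    Wide (fun y => XE P B G col T (some x) (some y)) x := by
  have hTs := h.big.strict hG
  have hTcs := hTc.big.strict hG
  intro α β h0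
  by_cases hxB : x ∈ B
  swap
  · obtain ⟨u, hu, hlt⟩ := hTs.surround hx hv h0
    exact ⟨u, ⟨(side_ed hG hTs).1 hu, fun hh => absurd (mem_Wp_some.1 hh) hxB⟩, hlt⟩
  have hvB : ¬ HV B x := fun hh => hv (h.hv x hxB hh)
  obtain ⟨g, hg, hlt⟩ := hw x hxB hvB α β h0
  rcases hg with ⟨hs, hgB⟩ | hg
  swap
  · exact ⟨g, ⟨(side_ed hG hTs).1 (h.ref _ _ (hGs _ _ hg)), fun _ _ _ => hg⟩, hlt⟩
  have hgP : g ∈ P := (Side.mem hTcs hs).2
  -- the cell of `g`, with corner `x`
  obtain ⟨b, c, hc, hgb⟩ : ∃ b c, OT B C (some x) b c ∧ Bdy P B (some x) b c g := by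
    obtain ⟨a, b, c, hc, hgb⟩ := cell_ex hG hTc hgP hgB
    obtain ⟨y, hy⟩ := (side_ed hG hTcs).1 hs.symm
    have hx1 := (loc hG hTc hc hgb hy).1.corner (mem_Wp_some.2 hxB)
    rcases hx1 with rfl | rfl | rfl
    · exact ⟨_, _, hc, hgb⟩
    · exact ⟨_, _, OT_rot _ _ _ hc, hgb.rot⟩
    · exact ⟨_, _, OT_rot _ _ _ (OT_rot _ _ _ hc), hgb.rot.rot⟩
  rcases b with _ | d1
  · rcases c with _ | d2
    · exact hc.elim
    · exact absurd (HE.hv_left hc) hvB
  rcases c with _ | d2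
  · exact absurd (HE.hv_right hc) hvB
  obtain ⟨z1, hz1, ht1⟩ := apex hG hTc hc hgb
  obtain ⟨z2, hz2, ht2⟩ := apex hG hTc (OT_rot _ _ _ (OT_rot _ _ _ hc)) hgb.rot.rot
  have g1 : 0 < cr x d1 g := hgb.2.2.1
  have g2 : 0 < cr x g d2 := by
    have : 0 < cr d2 x g := hgb.2.2.2.2
    rw [cr_rot] at this
    exact this
  have m1 : 0 < cr x d1 z1 := hz1.2.2.1
  have m2 : 0 < cr x d1 z2 := hz2.2.2.2.1
  have m3 : 0 < cr x z2 d2 := by
    have : 0 < cr d2 x z2 := hz2.2.2.1
    rw [cr_rot] at this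
    exact this
  have hcC : {x, d1, d2} ∈ C := hc.1
  have hcr : 0 < cr x d1 d2 := hc.2
  obtain ⟨s1, s2⟩ := Wid_tri h.tri hcC hcr
  have hxg : x ≠ g := fun e => hgB (e ▸ hxB)
  have claim1 : ∃ h1, XE P B G col T (some x) (some h1) ∧ (g = h1 ∨ 0 < cr x h1 g) ∧
      (h1 = d1 ∨ 0 < cr x d1 h1) := by
    by_cases hcol : col (some x) = col (some d1)
    · refine ⟨z1, ⟨?_, fun _ hh => absurd (mem_Wp_some.1 hh) hz1.2.1⟩, ?_, Or.inr m1⟩
      · have hh : OT P T (some x) (some d1) (some z1) := hK x d1 d2 z1 hc hz1.2.1 hcol ht1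
        exact (side_ed hG hTs).1 (Wid_tri hTs hh.1 hh.2).2
      · by_cases hgz : g = z1
        · exact Or.inl hgz
        · right
          have hxz : x ≠ z1 := fun e => hz1.2.1 (e ▸ hxB)
          have hne := hG x hx z1 hz1.1 g hgP hxz hxg (Ne.symm hgz)
          rcases lt_or_gt_of_ne hne with hh | hh
          · exfalso
            have h3 : 0 < cr x g z1 := by rw [cr_neg]; linarith
            exact hTcs.no_side_in ht1.1 hs g1 h3 m1
          · exact hh
    · exact ⟨d1, ⟨(side_ed hG hTs).1 (h.ref _ _ s1), fun _ _ hh => absurd hh hcol⟩,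
        Or.inr g1, Or.inl rfl⟩
  have claim2 : ∃ h2, XE P B G col T (some x) (some h2) ∧ (g = h2 ∨ 0 < cr x g h2) ∧
      0 < cr x d1 h2 := by
    by_cases hcol : col (some x) = col (some d2)
    · refine ⟨z2, ⟨?_, fun _ hh => absurd (mem_Wp_some.1 hh) hz2.2.1⟩, ?_, m2⟩
      · have hh : OT P T (some d2) (some x) (some z2) :=
          hK d2 x d1 z2 (OT_rot _ _ _ (OT_rot _ _ _ hc)) hz2.2.1 hcol.symm ht2
        have hh' : OT P T (some x) (some z2) (some d2) := OT_rot _ _ _ hh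
        exact (side_ed hG hTs).1 (Wid_tri hTs hh'.1 hh'.2).1
      · by_cases hgz : g = z2
        · exact Or.inl hgz
        · right
          have hxz : x ≠ z2 := fun e => hz2.2.1 (e ▸ hxB)
          have hne := hG x hx g hgP z2 hz2.1 hxg hxz hgz
          rcases lt_or_gt_of_ne hne with hh | hh
          · exfalso
            have h3 : 0 < cr x z2 g := by rw [cr_neg]; linarith
            have ht3 : OT P Tc (some x) (some z2) (some d2) := OT_rot _ _ _ ht2
            exact hTcs.no_side_in ht3.1 hs h3 g2 m3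
          · exact hh
    · exact ⟨d2, ⟨(side_ed hG hTs).1 (h.ref _ _ s2), fun _ _ hh => absurd hh hcol⟩,
        Or.inr g2, hcr⟩
  obtain ⟨h1, k1, k2, k3⟩ := claim1
  obtain ⟨h2, l1, l2, l3⟩ := claim2
  rcases sector_lf hlt k2 l2 k3 g1 l3 with hh | hh
  · exact ⟨h1, k1, hh⟩
  · exact ⟨h2, l1, hh⟩

end MP91a79a

end
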