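import Pool.Agent.Lib.MP_91a79a_co.E.L
import Pool.Agent.Lib.MP_91a79a_co.E.Wid
import Pool.Agent.Lib.MP_91a79a_co.E.Col
import Pool.Agent.Lib.MP_91a79a_co.E.Q2
import Pool.Agent.Lib.MP_91a79a_co.E.Exists

/-!
Section 3 (MP_91a79a_co): assembly of `Sec3`.
-/

noncomputable section

namespace MP91a79a

open Set Classical

variable {P B : Finset Pt} {C T T0 Tc : Finset (Finset Pt)} {col : Option Pt → Bool}
  {G : Pt → Pt → Prop}

/-- `x` and `y` are in the same body -/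
def Krel (P B : Finset Pt) (C : Finset (Finset Pt)) (x y : Option Pt) : Prop :=
  ∃ a b c p q, OT B C a b c ∧ Bdy P B a b c p ∧ Bdy P B a b c q ∧ x = some p ∧ y = some q

theorem Bdy.of_rot {a b c a' b' c' : Option Pt} {p : Pt} (hr : Rot a b c a' b' c')
    (h : Bdy P B a b c p) : Bdy P B a' b' c' p := by
  rcases hr with ⟨rfl, rfl, rfl⟩ | ⟨rfl, rfl, rfl⟩ | ⟨rfl, rfl, rfl⟩
  · exact h
  · exact h.rot
  · exact h.rot.rot

theorem Bdy.of_rot' {a b c a' b' c' : Option Pt} {p : Pt} (hr : Rot a b c a' b' c')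
    (h : Bdy P B a' b' c' p) : Bdy P B a b c p := by
  rcases hr with ⟨rfl, rfl, rfl⟩ | ⟨rfl, rfl, rfl⟩ | ⟨rfl, rfl, rfl⟩
  · exact h
  · exact h.rot.rot
  · exact h.rot

/-- a vertex which is not a hub is a finite point -/
theorem not_Wp {x : Option Pt} (hx : x ∈ Wp P) (hxB : x ∉ Wp B) : ∃ p, x = some p ∧ p ∈ P ∧ p ∉ B := by
  rcases mem_Wp.1 hx with rfl | ⟨p, hp, rfl⟩
  · exact absurd mem_Wp_none hxB
  · exact ⟨p, rfl, hp, fun hc => hxB (mem_Wp_some.2 hc)⟩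

/-- the cell of a body point which is adjacent to the hub `d`, rotated such that `d` is first -/
theorem cell_at (hG : GP P) (h : Coarse P B C T) {p : Pt} {d : Option Pt} (hp : p ∈ P)
    (hpB : p ∉ B) (hd : d ∈ Wp B) (he : Ed (OT P T) (some p) d) :
    ∃ b c, OT B C d b c ∧ Bdy P B d b c p := by
  obtain ⟨a, b, c, hc, hx⟩ := cell_ex hG h hp hpB
  obtain ⟨z, hz⟩ := he
  have hcc := (loc hG h hc hx hz).1
  rcases hcc.corner hd with rfl | rfl | rfl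
  · exact ⟨b, c, hc, hx⟩
  · exact ⟨c, a, OT_rot _ _ _ hc, hx.rot⟩
  · exact ⟨a, b, OT_rot _ _ _ (OT_rot _ _ _ hc), hx.rot.rot⟩

/-- corners of a cell are hubs -/
theorem cell_mem (hC : STri B C) {a b c : Option Pt} (h : OT B C a b c) :
    a ∈ Wp B ∧ b ∈ Wp B ∧ c ∈ Wp B :=
  ⟨OT_mem hC _ _ _ h, OT_mem hC _ _ _ (OT_rot _ _ _ h), OT_mem hC _ _ _ (OT_rot _ _ _ (OT_rot _ _ _ h))⟩

/-- two different corners of a cell, up to rotation -/
theorem cell_two {a b c d d' : Option Pt} (hd : d = a ∨ d = b ∨ d = c)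
    (hd' : d' = a ∨ d' = b ∨ d' = c) (hne : d ≠ d') :
    (∃ e, Rot a b c d d' e) ∨ ∃ e, Rot a b c d' d e := by
  rcases hd with rfl | rfl | rfl <;> rcases hd' with rfl | rfl | rfl <;>
    first
    | exact absurd rfl hne
    | exact Or.inl ⟨_, Or.inl ⟨rfl, rfl, rfl⟩⟩
    | exact Or.inl ⟨_, Or.inr (Or.inl ⟨rfl, rfl, rfl⟩)⟩
    | exact Or.inl ⟨_, Or.inr (Or.inr ⟨rfl, rfl, rfl⟩)⟩
    | exact Or.inr ⟨_, Or.inl ⟨rfl, rfl, rfl⟩⟩
    | exact Or.inr ⟨_, Or.inr (Or.inl ⟨rfl, rfl, rfl⟩)⟩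
    | exact Or.inr ⟨_, Or.inr (Or.inr ⟨rfl, rfl, rfl⟩)⟩

theorem OT_of_rot {a b c a' b' c' : Option Pt} (hr : Rot a b c a' b' c') (h : OT P T a b c) :
    OT P T a' b' c' := by
  rcases hr with ⟨rfl, rfl, rfl⟩ | ⟨rfl, rfl, rfl⟩ | ⟨rfl, rfl, rfl⟩
  · exact h
  · exact OT_rot _ _ _ h
  · exact OT_rot _ _ _ (OT_rot _ _ _ h)

theorem krel_iff (hG : GP P) (h : Coarse P B C T) {a b c : Option Pt} (hc : OT B C a b c) {p : Pt}
    (hp : Bdy P B a b c p) (y : Option Pt) :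
    Krel P B C (some p) y ↔ ∃ q, y = some q ∧ Bdy P B a b c q := by
  constructor
  · rintro ⟨a', b', c', p', q, h1, h2, h3, h4, h5⟩
    have hpp : p = p' := by simpa using h4
    subst hpp
    have hr := cell_uniq hG h h1 h2 hc hp
    exact ⟨q, h5, h3.of_rot hr⟩
  · rintro ⟨q, rfl, hq⟩
    exact ⟨a, b, c, p, q, hc, hp, hq, rfl, rfl⟩

/-- everything about cells which is used in section 4 -/
theorem sec3_of (hG : GP P) (h : Coarse P B C Tc) (hGs : ∀ u w, G u w → G w u)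
    (hGC : ∀ u w, G u w → Side C u w) (hHE : ∀ u w, HE B u w → G u w)
    (hac : AC (Gp B G) col) (hmino : Mino P B C col)
    (hbody : ∀ a b c x y, OT B C a b c → Bdy P B a b c x → Bdy P B a b c y →
      col (some x) = col (some y)) (hdom : Dom P B Tc col)
    (hwide : ∀ v ∈ P, ¬ HV P v → Wide (fun u => XE P B G col Tc (some v) (some u)) v) :
    Sec3 P B G col Tc (Krel P B C) := by
  have hT : STri P Tc := h.big.strict hG
  have h3 : 3 ≤ P.card := le_trans h.card (Finset.card_le_card h.sub)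
  have sphP : Sph (Wp P) (OT P Tc) := OT_sph hG hT h3
  have hadj : ∀ {x d : Option Pt}, Ed (OT P Tc) x d → x ∉ Wp B → ∃ p, x = some p ∧ p ∈ P ∧ p ∉ B :=
    fun he hx => not_Wp (sphP.ed_mem he) hx
  refine
    { gp := hG
      tri := hT
      card := h3
      sub := h.sub
      hv := h.hv
      Gs := hGs
      GT := fun u w hu => h.ref _ _ (hGC _ _ hu)
      hHE := hHE
      ac := hac
      KH := ?_
      Krefl := ?_
      Ksymm := ?_
      Ktrans := ?_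
      Kcol := ?_
      dom := ?_
      body := ?_
      fan := ?_
      apex := ?_
      tri3 := ?_
      minor := ?_
      wide := hwide }
  · rintro x y ⟨a, b, c, p, q, hc, hp, hq, rfl, rfl⟩
    exact ⟨mem_Wp_some.2 hp.1, fun hcon => hp.2.1 (mem_Wp_some.1 hcon)⟩
  · intro x hx hxB
    obtain ⟨p, rfl, hp, hpB⟩ := not_Wp hx hxB
    obtain ⟨a, b, c, hc, hbd⟩ := cell_ex hG h hp hpB
    exact ⟨a, b, c, p, p, hc, hbd, hbd, rfl, rfl⟩
  · rintro x y ⟨a, b, c, p, q, hc, hp, hq, rfl, rfl⟩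
    exact ⟨a, b, c, q, p, hc, hq, hp, rfl, rfl⟩
  · rintro x y z ⟨a, b, c, p, q, hc, hp, hq, rfl, rfl⟩ hyz
    obtain ⟨r, rfl, hr⟩ := (krel_iff hG h hc hq z).1 hyz
    exact ⟨a, b, c, p, r, hc, hp, hr, rfl, rfl⟩
  · rintro x y ⟨a, b, c, p, q, hc, hp, hq, rfl, rfl⟩
    exact hbody a b c p q hc hp hq
  · intro x hx hxB
    obtain ⟨p, rfl, hp, hpB⟩ := not_Wp hx hxB
    exact hdom p hp hpB
  · intro x y hx hy he
    obtain ⟨p, rfl, hp, hpB⟩ := hadj he hx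
    obtain ⟨q, rfl, hq, hqB⟩ := hadj (sphP.ed_symm he) hy
    obtain ⟨a, b, c, hc, hbd⟩ := cell_ex hG h hp hpB
    obtain ⟨z, hz⟩ := he
    exact ⟨a, b, c, p, q, hc, hbd, (loc hG h hc hbd hz).1.body hc h.tri hqB, rfl, rfl⟩
  · intro x d hx hd he
    obtain ⟨p, rfl, hp, hpB⟩ := hadj (sphP.ed_symm he) hx
    obtain ⟨b, c, hc, hbd⟩ := cell_at hG h hp hpB hd (sphP.ed_symm he)
    refine ⟨b, ed_ref hG h ⟨c, hc⟩, ?_, ?_⟩
    · intro hcon
      obtain ⟨q, rfl, hq⟩ := (krel_iff hG h hc hbd _).1 hcon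
      exact hq.2.1 (mem_Wp_some.1 (cell_mem h.tri hc).2.1)
    · intro w w' hw hw'
      obtain ⟨q, rfl, hq⟩ := (krel_iff hG h hc hbd _).1 hw'
      rcases fan_step hG h hc hq hw with hb | ⟨r, rfl, hr⟩
      · exact Or.inr hb
      · exact Or.inl ((krel_iff hG h hc hbd _).2 ⟨r, rfl, hr⟩)
  · intro x x' d d' hK hd hd' hdd he he' _ _
    obtain ⟨p, rfl, hp, hpB⟩ : ∃ p, x = some p ∧ p ∈ P ∧ p ∉ B := by
      obtain ⟨a, b, c, p, q, _, h1, _, h2, _⟩ := hK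
      exact ⟨p, h2, h1.1, h1.2.1⟩
    obtain ⟨b, c, hc, hbd⟩ := cell_at hG h hp hpB hd he
    obtain ⟨p', rfl, hp'⟩ := (krel_iff hG h hc hbd _).1 hK
    obtain ⟨b', c', hc', hbd'⟩ := cell_at hG h hp'.1 hp'.2.1 hd' he'
    have hr := cell_uniq hG h hc hp' hc' hbd'
    have hcor : d' = d ∨ d' = b ∨ d' = c := by
      rcases hr with ⟨h1, _, _⟩ | ⟨h1, _, _⟩ | ⟨h1, _, _⟩
      · exact Or.inl h1
      · exact Or.inr (Or.inl h1)
      · exact Or.inr (Or.inr h1)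
    rcases cell_two (Or.inl rfl) hcor hdd with ⟨e, hr2⟩ | ⟨e, hr2⟩
    · obtain ⟨z, hz1, hz2⟩ := apex hG h (OT_of_rot hr2 hc) (hbd.of_rot hr2)
      exact ⟨some z, (krel_iff hG h hc hbd _).2 ⟨z, rfl, hz1.of_rot' hr2⟩,
        Or.inl (OT_rot _ _ _ (OT_rot _ _ _ hz2))⟩
    · obtain ⟨z, hz1, hz2⟩ := apex hG h (OT_of_rot hr2 hc) (hbd.of_rot hr2)
      exact ⟨some z, (krel_iff hG h hc hbd _).2 ⟨z, rfl, hz1.of_rot' hr2⟩,
        Or.inr (OT_rot _ _ _ (OT_rot _ _ _ hz2))⟩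
  · intro x d d' ht hx hd hd'
    obtain ⟨p, rfl, hp, hpB⟩ := hadj ⟨_, ht⟩ hx
    obtain ⟨a, b, c, hc, hbd⟩ := cell_ex hG h hp hpB
    obtain ⟨l1, l2⟩ := loc hG h hc hbd ht
    have hne : d ≠ d' := sphP.ne _ _ _ (OT_rot _ _ _ ht)
    rintro ⟨c1, c2⟩
    rcases cell_two (l1.corner hd) (l2.corner hd') hne with ⟨e, hr2⟩ | ⟨e, hr2⟩
    · exact hmino _ _ _ _ (OT_of_rot hr2 hc) (hbd.of_rot hr2) ⟨c1, c2⟩
    · exact hmino _ _ _ _ (OT_of_rot hr2 hc) (hbd.of_rot hr2) ⟨c2, c1⟩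
  · intro v y hv hy he hcol
    obtain ⟨p, rfl, hp, hpB⟩ := hadj (sphP.ed_symm he) hy
    obtain ⟨b, c, hc, hbd⟩ := cell_at hG h hp hpB hv (sphP.ed_symm he)
    refine ⟨b, (cell_mem h.tri hc).2.1, ed_ref hG h ⟨c, hc⟩, ?_⟩
    intro hcon
    exact hmino _ _ _ _ hc hbd ⟨hcol, hcon.trans hcol⟩

theorem gp_mem (h : STri B C) (hGC : ∀ u w, G u w → Side C u w) {a b : Option Pt}
    (hab : Gp B G a b) : a ∈ Wp B ∧ b ∈ Wp B := by
  rcases a with _ | a <;> rcases b with _ | b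
  · exact absurd hab id
  · exact ⟨mem_Wp_none, mem_Wp_some.2 hab.1⟩
  · exact ⟨mem_Wp_some.2 hab.1, mem_Wp_none⟩
  · have := (hGC _ _ hab).mem h
    exact ⟨mem_Wp_some.2 this.1, mem_Wp_some.2 this.2⟩

/-- SECTION 3 -/
theorem sec3 (hG : GP P) (h : Coarse P B C T0) : ∃ (G : Pt → Pt → Prop) (col : Option Pt → Bool)
    (Tc : Finset (Finset Pt)), Coarse P B C Tc ∧ Sec3 P B G col Tc (Krel P B C) ∧
      col none = false ∧ Qone P B Tc col := by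
  obtain ⟨T1, hT1, hcan⟩ := exists_can hG h
  have hwC : ∀ v ∈ B, ¬ HV B v → Wide (fun u => (Side T1 v u ∧ u ∉ B) ∨ Side C v u) v := by
    intro v hv hnv α β h0
    obtain ⟨u, hu, hlt⟩ := h.tri.surround hv hnv h0
    exact ⟨u, Or.inr hu, hlt⟩
  obtain ⟨G, col0, hGs, hGC, hHE, hw, hn0, hac0⟩ := skeleton hG h.sub (Side C)
    (fun v u => Side T1 v u ∧ u ∉ B) (fun u w => Side.symm)
    (fun u w hs => ⟨(hs.mem h.tri).1, (hs.mem h.tri).2, hs.1⟩)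
    (fun v u hu => ⟨(hu.1.mem (hT1.big.strict hG)).2, hu.1.1.symm⟩)
    (fun u w he => he.side (hG.mono h.sub) h.tri) hwC
  obtain ⟨col, hcol, hmino, hbody⟩ := ext_col hG h col0
  have hnone : col none = false := by rw [hcol none mem_Wp_none, hn0]
  have hac : AC (Gp B G) col := by
    intro D h1 h2 h3 v w hvw
    refine hac0 D h1 (fun v w hD => ?_) h3 v w hvw
    obtain ⟨g1, g2⟩ := h2 v w hD
    obtain ⟨m1, m2⟩ := gp_mem h.tri hGC g1
    rw [hcol v m1, hcol w m2] at g2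
    exact ⟨g1, g2⟩
  obtain ⟨Tc, hTc, hdom, hkeep, hq⟩ := exists_q hG hbody (exists_chi hG hT1 hcan hnone hmino)
  refine ⟨G, col, Tc, hTc, sec3_of hG hTc hGs hGC hHE hac hmino hbody hdom ?_, hnone, hq⟩
  intro v hv hnv
  exact xe_wide hG hTc hT1 hkeep hGC hw hv hnv

end MP91a79a

end
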